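import Mathlib
import Pool.Agent.Lib.MP_0016c7_nt.Rz.Defs
import Pool.Agent.Lib.MP_0016c7_nt.PC.DefsM
import Pool.Agent.Lib.MP_0016c7_nt.PC.Defs
import Pool.Agent.Lib.MP_0016c7_nt.PC.Defs2
import Pool.Agent.Lib.MP_0016c7_nt.PC.Iface2

set_option autoImplicit false

/-!
Block [W] (moments with the sieve weights): statements, with complete proofs in the comments.
-/

open Finset MeasureTheory Filter Topology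
open scoped Real ContDiff

namespace Pool.Agent.MP0016c7.PC

open Pool.Agent.MP0016c7.Rz

/-- [W1] Power sums of the divisor function.
PROOF. Let `S_k = ∑ d(n)^k / n`. `S_0 ≤ 1 + log K` (harmonic sum; `K = 0`: the sum is empty and the
right side is `1`). Step: `d(n)^(k+1) / n = ∑_{ab = n} d(n)^k / n`, and `d(n) ≤ d(a) d(b)` for
`n = ab`, hence `S_(k+1) ≤ ∑_{a ≤ K} ∑_{b ≤ K} d(a)^k d(b)^k / (a b) = S_k ^ 2`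
(the pairs `(a, b)` with `ab = n ≤ K` are in `[1,K]²`; use `Nat.sum_divisorsAntidiagonal` or
`Finset.sum_sigma'` with an injection). `((1 + log K)^(2^k))^2 = (1 + log K)^(2^(k+1))`. -/
def S_W1 : Prop :=
  ∀ k K : ℕ, ∑ n ∈ Icc 1 K, (n.divisors.card : ℝ) ^ k / n ≤ (1 + Real.log K) ^ (2 ^ k)

/-- [W2] Push-forward of a product. PROOF. The fibre of `(n, l) ↦ n l` over `N ≥ 1` is contained in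
the divisor pairs of `N`, so has at most `d(N)` elements, and `1 ≤ n l ≤ M ^ 2`
(`Finset.sum_fiberwise_of_maps_to` on `Icc 1 M ×ˢ Icc 1 M`, the fibre injects into `N.divisors`
by the first coordinate). -/
def S_W2 : Prop :=
  ∀ (M : ℕ) (G : ℕ → ℝ), (∀ N, 0 ≤ G N) →
    ∑ n ∈ Icc 1 M, ∑ l ∈ Icc 1 M, G (n * l) ≤ ∑ N ∈ Icc 1 (M ^ 2), (N.divisors.card : ℝ) * G N

/-- [W3] PROOF. Write `N = a b ^ 2`, `a = sq1 N`, `b = sq2 N` (theorem `sq1_mul_sq2` in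
`Rz/ArithA1.lean`), then `√N * √(sq1 N) = a b`, `d(N) ≤ d(a) d(b)^2` (`d(xy) ≤ d(x) d(y)`), the map
`N ↦ (a, b)` is injective from `[1,K]` to `[1,K]²`, so the sum is at most
`(∑_{a ≤ K} d(a)^k / a) (∑_{b ≤ K} d(b)^(2k) / b)`; now use `S_W1`. -/
def S_W3 : Prop :=
  ∀ k K : ℕ, ∑ N ∈ Icc 1 K, (N.divisors.card : ℝ) ^ k / (√(N : ℝ) * √(sq1 N : ℝ)) ≤
    (1 + Real.log K) ^ (2 ^ k) * (1 + Real.log K) ^ (2 ^ (2 * k))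

/-- [W4] The absolute quadruple sum. PROOF. Let `G N = d(N) / (√N √(sq1 N)) ≥ 0`. By `S_W2` (inner
two sums, for fixed `n₁ l₁`, applied to `N ↦ G (n₁ l₁ N)`) and again `S_W2` for the outer two:
the left side is `≤ ∑_{u ≤ M²} ∑_{v ≤ M²} d(u) d(v) G(u v)`, and `d(u) ≤ d(uv)`, `d(v) ≤ d(uv)`
(`u, v` divide `uv ≠ 0`), so `≤ ∑_u ∑_v d(uv)² G(uv) ≤ ∑_{N ≤ M⁴} d(N)³ G(N)` by `S_W2` once more;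
then `S_W3` with `k = 4`, `K = (M^2)^2`, `log K = 4 log M`, `2^4 + 2^8 = 272`. -/
def S_W4 : Prop :=
  ∀ M : ℕ, ∑ n₁ ∈ Icc 1 M, ∑ l₁ ∈ Icc 1 M, ∑ n₂ ∈ Icc 1 M, ∑ l₂ ∈ Icc 1 M,
    ((n₁ * l₁ * n₂ * l₂).divisors.card : ℝ) /
      (√((n₁ * l₁ * n₂ * l₂ : ℕ) : ℝ) * √(sq1 (n₁ * l₁ * n₂ * l₂) : ℝ)) ≤
    (1 + 4 * Real.log M) ^ 272

/-- [W4b] The absolute size of the quadruple sums, two profiles. PROOF (from `S_W4`). By `lipW_Wt`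
(`Rz/LipWt.lean`) the weights are `LipW (θ_i + 3 δ) X C_i` for `X ≥ X₁`. In `quad` with `r = 1`,
`M = ⌊X^2⌋₊`: the nonzero terms have `N = n₁ l₁ n₂ l₂` odd, `l_i n_i ≤ X^(1/2 + θ_i + 3 δ) ≤ X`
(`supp₂`), so `N ≤ X^2 ≤ X^4` and `|M N| ≤ e d(N) / √(sq1 N)`; `|W_i| ≤ C_i`, `|μ| ≤ 1`. Hence
`|quad| ≤ C₁ C₂ e (1 + 4 log ⌊X^2⌋₊)^272 ≤ C₁ C₂ e (1 + 8 log X)^272 ≤ C₁ C₂ e (9 log X)^272 ≤
e (log X)^273` for `X` large. Model: `quad_err` in `Rz2/QErr.lean`. -/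
def S_W4b : Prop :=
  ∀ (θ₁ θ₂ δ : ℝ), 0 < θ₁ → 0 < θ₂ → 0 < δ → θ₁ + 3 * δ < 1 / 2 → θ₂ + 3 * δ < 1 / 2 →
  ∀ c : ℝ, (c = 0 ∨ c = 1) → ∀ (ρ₁ ρ₂ h₁ h₂ : ℝ → ℝ), Bump ρ₁ (-(δ / 2)) (δ / 2) →
  Bump ρ₂ (-(δ / 2)) (δ / 2) → Bump h₁ 0 θ₁ → Bump h₂ 0 θ₂ →
  ∃ X₀ : ℝ, ∀ X : ℝ, X₀ ≤ X →
    ∀ Y₁ ∈ Set.Icc (-1 : ℝ) (1 / 2 + δ), ∀ Y₂ ∈ Set.Icc (-1 : ℝ) (1 / 2 + δ),
    ∀ (M : ℕ → ℝ) (e : ℝ), 0 ≤ e → (∀ N : ℕ, Odd N → (N : ℝ) ≤ X ^ 4 →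
      |M N| ≤ e * ((N.divisors.card : ℝ) / √(sq1 N : ℝ))) →
    |quad (Wt c ρ₁ h₁ X θ₁ δ Y₁) (Wt c ρ₂ h₂ X θ₂ δ Y₂) 1 ⌊X ^ 2⌋₊ M| ≤
      e * (Real.log X) ^ 273

/-- [W5] Exchange of the sum over the sieve modulus with the quadruple sum. PROOF. Unfold `quad`,
exchange the finite sums (`Finset.mul_sum`, `Finset.sum_comm`); for each quadruple, `N` is coprime
to `2 m` iff it is coprime to `2 * 1` and to `m` (`Nat.coprime_mul_iff_right`); `Nat.Coprime m N`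
is `Nat.Coprime N m` (`Nat.coprime_comm`); `Finset.sum_filter`, `Finset.sum_mul`. -/
def S_W5 : Prop :=
  ∀ (W₁ W₂ : ℕ → ℕ → ℝ) (S : Finset ℕ) (a : ℕ → ℝ) (K : ℕ) (f : ℕ → ℝ),
    ∑ m ∈ S, a m * quad W₁ W₂ m K f =
      quad W₁ W₂ 1 K (fun N => (∑ m ∈ S.filter (fun m => Nat.Coprime m N), a m) * f N)

/-- [W5b] Linearity of `quad`. PROOF. `Finset.sum_add_distrib`, `Finset.mul_sum` (see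
`smg_quad_add` in `Rz2/SmG.lean`); the third claim: the terms of `quad` with `N` not coprime to
`2 r` are zero, for the others the arguments are in the range of the hypothesis. -/
def S_W5b : Prop :=
  ∀ (W₁ W₂ : ℕ → ℕ → ℝ) (r K : ℕ) (f g : ℕ → ℝ),
    (quad W₁ W₂ r K (fun N => f N + g N) = quad W₁ W₂ r K f + quad W₁ W₂ r K g) ∧
    (∀ a : ℝ, quad W₁ W₂ r K (fun N => a * f N) = a * quad W₁ W₂ r K f) ∧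
    ((∀ N : ℕ, Nat.Coprime N (2 * r) → f N = g N) → quad W₁ W₂ r K f = quad W₁ W₂ r K g)

/-- [W6] The average of the truncated processes with the sieve weights. PROOF. Model:
`TT_averageR` in `Rz2/TTavg.lean`. For `d ≥ 1` with `R d`: `∑_{m ∣ d} w m = ∑_{m ∈ Osq ⌊K⌋₊, m ∣ d}
w m` (the support condition: `w m ≠ 0` implies `m` odd, squarefree, `1 ≤ m ≤ ⌊K⌋₊`, and a divisor
`m` of `d ≥ 1` is `≥ 1`); for `d = 0` the left term is `0` (no divisors) and on the right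
`F (0 / X) = F 0 = 0` because `0 < a`. The product of the two processes is the quadruple sum of
`μ(l₁) μ(l₂) W₁ W₂ / √N * jr (2 σ (k₀ d)) N`, `N = n₁ l₁ n₂ l₂` (multiplicativity of `jr` in the
lower argument, `tta_jr_mul`), which vanishes unless `N` is odd and coprime to `k₀ d`, so for
`m ∣ d` the condition that `N` is coprime to `2 m` can be inserted (`jacobiSym` is `0` if
`gcd ≠ 1`: `jacobiSym.eq_zero_iff_not_coprime`). The sum over `d` is a finite sum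
(`F (d / X) = 0` for `d ≥ b X`, `tta_sum`), exchange it with the finite sums over `m` and the
quadruples; `w m / m * (m / (D X)) = w m / (D X)` (`m ≠ 0` on `Osq`). -/
def S_W6 : Prop :=
  ∀ (R : ℕ → Prop) (D : ℝ), 0 < D → ∀ (F : ℝ → ℝ) (a b : ℝ), 0 < a → Bump F a b →
  ∀ (σ : ℤ) (c₀ : ℕ) (w : ℕ → ℝ) (V K : ℝ),
  (∀ m : ℕ, w m ≠ 0 → Odd m ∧ Squarefree m ∧ (m : ℝ) ≤ K) → 0 < V →
  ∀ (c δ θ₁ θ₂ : ℝ) (ρ₁ ρ₂ h₁ h₂ : ℝ → ℝ) (X : ℝ), 1 ≤ X → ∀ (Y₁ Y₂ : ℝ),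
    avWg R D w V F X (fun d => TT c σ ρ₁ h₁ X θ₁ δ (c₀ * d) Y₁ *
      TT c σ ρ₂ h₂ X θ₂ δ (c₀ * d) Y₂) =
    1 / V * ∑ m ∈ Osq ⌊K⌋₊, w m / m *
      quad (Wt c ρ₁ h₁ X θ₁ δ Y₁) (Wt c ρ₂ h₂ X θ₂ δ Y₂) m ⌊X ^ 2⌋₊ (PRw R D c₀ σ F m X)

/-- [W7] Replacing the processes by the truncated ones. PROOF. Model: step 1 of `second_momentG`
(`smg_replace`) in `Rz2/SmG.lean`. By `ytil_trunc` (`Rz/Sm1.lean`) for both profiles: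
`|y₁ y₂ - t₁ t₂| ≤ |y₁| |y₂ - t₂| + |t₂| |y₁ - t₁| ≤ 2 X^20 X^(-30) = 2 X^(-10)`. Weights: for
`d ≥ 1`, `|∑_{m ∣ d} w m| ≤ ∑_{m ∈ Icc 1 ⌊X^η⌋₊} |w m| ≤ X^η X^ε₀ ≤ X^2`. At most `(|b| + 2) X`
values of `d` with `F (d / X) ≠ 0`, `|F| ≤ B`. Total
`≤ 1 / (D V X) (|b| + 2) X * X^2 * B * 2 X^(-10) ≤ C (log X)^10 X^(-8) → 0` (`SW.low`). -/
def S_W7 : Prop :=
  ∀ (R : ℕ → Prop) (D : ℝ), 0 < D → ∀ (F : ℝ → ℝ) (a b : ℝ), 0 < a → Bump F a b →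
  ∀ (σ : ℤ) (c₀ : ℕ) (θ₁ θ₂ δ η : ℝ), 0 < θ₁ → 0 < θ₂ → 0 < δ → 0 < η → θ₁ + 3 * δ < 1 / 2 →
  θ₂ + 3 * δ < 1 / 2 → η < 1 / 2 →
  ∀ c : ℝ, (c = 0 ∨ c = 1) → ∀ (ρ₁ ρ₂ h₁ h₂ : ℝ → ℝ), Bump ρ₁ (-(δ / 2)) (δ / 2) →
  Bump ρ₂ (-(δ / 2)) (δ / 2) → Bump h₁ 0 θ₁ → Bump h₂ 0 θ₂ → ∀ ε' : ℝ, 0 < ε' →
  ∃ X₀ : ℝ, ∀ X : ℝ, X₀ ≤ X → ∀ (ε₀ : ℝ), ε₀ ≤ 1 → ∀ (A : ℕ) (w : ℕ → ℝ) (V : ℝ),
    SW X η ε₀ A w V →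
    ∀ Y₁ ∈ Set.Icc (-1 : ℝ) (1 / 2 + δ), ∀ Y₂ ∈ Set.Icc (-1 : ℝ) (1 / 2 + δ),
    |avWg R D w V F X (fun d => ytil c σ ρ₁ h₁ X (c₀ * d) Y₁ * ytil c σ ρ₂ h₂ X (c₀ * d) Y₂) -
      avWg R D w V F X (fun d => TT c σ ρ₁ h₁ X θ₁ δ (c₀ * d) Y₁ *
        TT c σ ρ₂ h₂ X θ₂ δ (c₀ * d) Y₂)| ≤ ε'

/-- [W8] The trivial error terms, summed over the sieve modulus. PROOF. Model: `quad_err` in
`Rz2/QErr.lean`. Let `κ = 1/2 - max θ_i - 3 δ - η > 0` and `Z_i = X^(1/2 + θ_i + 3 δ)`. With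
`LipW (θ_i + 3 δ) X C_i`: in `quad` with modulus `m` the nonzero terms have `N` odd and coprime to
`m`, `n_i l_i ≤ Z_i`, `N ≤ Z₁ Z₂ ≤ X^2`, `1 / √N ≤ √(Z₁ Z₂) / N`, `√(Z₁ Z₂) ≤ X^(1 - η - κ)`,
`d(N) ≤ C_κ X^(κ/4)` (`divisor_bound`). So `|quad| ≤ C₁ C₂ (C₀ m / X) C_κ X^(κ/4) X^(1 - η - κ)
(1 + log X^2)^4`; multiply by `|v m| / m ≤ X^ε₀ / m` and sum over the at most `X^η` values of `m`: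
`≤ C X^(ε₀ + κ/4 - κ) (1 + 2 log X)^4 ≤ X^(-κ/4)` for `ε₀ = κ/4`, `X` large. -/
def S_W8 : Prop :=
  ∀ (θ₁ θ₂ δ η : ℝ), 0 < θ₁ → 0 < θ₂ → 0 < δ → 0 < η → θ₁ + 3 * δ + η < 1 / 2 →
  θ₂ + 3 * δ + η < 1 / 2 →
  ∀ c : ℝ, (c = 0 ∨ c = 1) → ∀ (ρ₁ ρ₂ h₁ h₂ : ℝ → ℝ), Bump ρ₁ (-(δ / 2)) (δ / 2) →
  Bump ρ₂ (-(δ / 2)) (δ / 2) → Bump h₁ 0 θ₁ → Bump h₂ 0 θ₂ → ∀ C₀ : ℝ, 0 ≤ C₀ →
  ∃ ε₀ η' X₀ : ℝ, 0 < ε₀ ∧ 0 < η' ∧ ∀ X : ℝ, X₀ ≤ X →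
    ∀ Y₁ ∈ Set.Icc (-1 : ℝ) (1 / 2 + δ), ∀ Y₂ ∈ Set.Icc (-1 : ℝ) (1 / 2 + δ),
    ∀ E : ℕ → ℕ → ℝ, (∀ m ∈ Osq ⌊X ^ η⌋₊, ∀ N : ℕ, Odd N → Nat.Coprime m N →
      |E m N| ≤ C₀ * m * N.divisors.card / X) →
    ∀ v : ℕ → ℝ, (∀ m, |v m| ≤ X ^ ε₀) →
    |∑ m ∈ Osq ⌊X ^ η⌋₊, v m / m * quad (Wt c ρ₁ h₁ X θ₁ δ Y₁) (Wt c ρ₂ h₂ X θ₂ δ Y₂) m ⌊X ^ 2⌋₊
      (E m)| ≤ X ^ (-η')

/-- [W9] The size of the main function. PROOF. For an odd prime `p`, `(1 - 1/p)⁻¹ = p / (p - 1)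
≤ √p`, because `p ≤ (p - 1)^2` for `p ≥ 3`. So `1 ≤ gN N ≤ ∏_{p ∣ N} √p ≤ √N` for `N` odd
(`Nat.prod_primeFactors_dvd`). By `divisor_bound` (`Rz/DivB.lean`) with `ε = 1/2`:
`d(N) ≤ C N^(1/2)`, and `√(sq1 N) ≥ 1`. -/
def S_W9 : Prop :=
  ∃ C : ℝ, 0 < C ∧ ∀ N : ℕ, Odd N →
    0 < gN N ∧ gN N * ((N.divisors.card : ℝ) / √(sq1 N : ℝ)) ≤ C * N

end Pool.Agent.MP0016c7.PC
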