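import Mathlib
import Pool.Agent.Lib.MP_0016c7_nt.PC.W.StmW

set_option autoImplicit false

/-!
Block [W] (moments with the sieve weights): the main term and the assembly of `JF_smW`.
-/

open Finset MeasureTheory Filter Topology
open scoped Real ContDiff

namespace Pool.Agent.MP0016c7.PC

open Pool.Agent.MP0016c7.Rz

/-- [W10] THE MAIN TERM WITH THE SIEVE WEIGHTS (any main functions `M X` of the right size whose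
quadruple sums with the factor `gN` converge to `L Y₁ Y₂`). PROOF (from `S_W4b`, `S_W5`, `S_W5b`).
Take `A = 274`. By `S_W5` (with `S = Osq ⌊X^η⌋₊`, `a m = w m / m`, `f = M X`)
`∑_m w m / m * quad_m (M X) = quad_1 (N ↦ S(N) * M X N)`, `S(N) = ∑_{m ∈ Osq ⌊X^η⌋₊, (m, N) = 1}
w m / m`, which is the sum over `(Icc 1 ⌊X^η⌋₊).filter (Coprime m N)` in `SW.dens`, because
`w m = 0` if `m` is not odd and squarefree (`SW.supp`). So for `N` odd, `N ≤ X^4`: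
`|S(N) / V - gN N| ≤ (log X)^(-A)`. By `S_W5b` (`1 / V` times the sum)
`= quad_1 (gN N * M X N) + quad_1 (e(N) * M X N)`, `e(N) = S(N) / V - gN N`, and
`|e(N) * M X N| ≤ C (log X)^(-A) * (d(N) / √(sq1 N))` for `N` odd, `N ≤ X^4`, so by `S_W4b` the
second term is at most `C (log X)^(273 - A) = C / log X ≤ ε / 2`. The first is within `ε / 2` of
`L Y₁ Y₂` by the hypothesis. -/
def S_W10 : Prop :=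
  ∀ (θ₁ θ₂ δ η : ℝ), 0 < θ₁ → 0 < θ₂ → 0 < δ → 0 < η → θ₁ + 3 * δ < 1 / 2 → θ₂ + 3 * δ < 1 / 2 →
  ∀ c : ℝ, (c = 0 ∨ c = 1) → ∀ (ρ₁ ρ₂ h₁ h₂ : ℝ → ℝ), Bump ρ₁ (-(δ / 2)) (δ / 2) →
  Bump ρ₂ (-(δ / 2)) (δ / 2) → Bump h₁ 0 θ₁ → Bump h₂ 0 θ₂ →
  ∀ (M : ℝ → ℕ → ℝ) (C : ℝ), 0 ≤ C → (∀ N : ℕ, Odd N → ∀ X : ℝ, 0 < X →
    |M X N| ≤ C * ((N.divisors.card : ℝ) / √(sq1 N : ℝ))) →
  ∀ L : ℝ → ℝ → ℝ, (∀ ε : ℝ, 0 < ε → ∃ X₀ : ℝ, ∀ X : ℝ, X₀ ≤ X →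
    ∀ Y₁ ∈ Set.Icc (-1 : ℝ) (1 / 2 + δ), ∀ Y₂ ∈ Set.Icc (-1 : ℝ) (1 / 2 + δ),
    |quad (Wt c ρ₁ h₁ X θ₁ δ Y₁) (Wt c ρ₂ h₂ X θ₂ δ Y₂) 1 ⌊X ^ 2⌋₊ (fun N => gN N * M X N) -
      L Y₁ Y₂| ≤ ε) →
  ∀ ε : ℝ, 0 < ε → ∃ X₀ : ℝ, ∀ X : ℝ, X₀ ≤ X → ∀ (ε₀ : ℝ) (w : ℕ → ℝ) (V : ℝ),
    SW X η ε₀ 274 w V →
    ∀ Y₁ ∈ Set.Icc (-1 : ℝ) (1 / 2 + δ), ∀ Y₂ ∈ Set.Icc (-1 : ℝ) (1 / 2 + δ),
    |1 / V * ∑ m ∈ Osq ⌊X ^ η⌋₊, w m / m *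
      quad (Wt c ρ₁ h₁ X θ₁ δ Y₁) (Wt c ρ₂ h₂ X θ₂ δ Y₂) m ⌊X ^ 2⌋₊ (M X) - L Y₁ Y₂| ≤ ε

/-- [W11] THE SECOND MOMENT WITH THE SIEVE WEIGHTS. PROOF. Let `β, B, M, c₁, c₂, c₃, k₁, k₂, k₃, C`
be the data of `TwP R D c₀ σ` for `F`. Put `C₀ = max k_i + max 1/k_i + 1`, take `(ε₁, η₁)` from
`JF_err` (with this `C₀`), `(ε₂, η₂)` from `S_W8` (`θ₁ = θ₂ = θ`, `C₀ = C`), and
`ε₀ = min ε₁ (min ε₂ 1)`, `A = 274`. For `X` large and `SW X η ε₀ A w V`: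
`|w m| ≤ X^ε₀ ≤ X^ε₁, X^ε₂`, `1 / V ≤ (log X)^10`.
(1) `avWg (ytil ytil) = avWg (TT TT) + O(ε'/8)` by `S_W7`.
(2) `avWg (TT TT) = 1/V ∑_{m ∈ Osq ⌊X^η⌋₊} w m / m * quad_m (PRw m X)` by `S_W6` with `K = X^η`
(`SW.supp`).
(3) For `m ∈ Osq ⌊X^η⌋₊`: `m^2 ≤ X^(2 η) ≤ X`. Put
`E m N = PRw m X N - (M X N + NSm c₁ m (k₁ X) N + NSm c₂ m (k₂ X) N + NSm c₃ m (k₃ X) N)`; for `N`
odd and coprime to `m` `|E m N| ≤ C m d(N) / X`. By `S_W5b` (additivity)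
`quad_m (PRw m X) = quad_m (M X) + quad_m (NSm ..) + quad_m (NSm ..) + quad_m (NSm ..) +
quad_m (E m)`.
(4) `1/V |∑_m w m / m quad_m (NSm c_i m (k_i X))| ≤ (log X)^10 X^(-η₁) ≤ ε'/16` by `JF_err`, and
`1/V |∑_m w m / m quad_m (E m)| ≤ (log X)^10 X^(-η₂) ≤ ε'/16` by `S_W8`.
(5) `1/V ∑_m w m / m quad_m (M X)` is within `ε'/8` of `(∫ F) * CC2 ρ₁ ρ₂ h₁ h₂ Y₁ Y₂` by `S_W10`
with `L = (∫ F) * CC2`; its hypothesis is `JF_quadp` for `M X` at the height `X`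
(`MRep β (∫ F) X (M X)`, and `|gN N * M X N| ≤ C * C' * N` by `S_W9`). -/
def S_W11 : Prop :=
  S_W4b → S_W5b → S_W6 → S_W7 → S_W8 → S_W9 → S_W10 → JF_err → JF_quadp → JF_smW

end Pool.Agent.MP0016c7.PC
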