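import Mathlib
import Pool.Agent.Lib.MP_0016c7_nt.PC.W.StmW2

set_option autoImplicit false

/-!
Block [W], W10: the main term with the sieve weights.
-/

open Finset MeasureTheory Filter Topology
open scoped Real ContDiff

namespace Pool.Agent.MP0016c7.PC

open Pool.Agent.MP0016c7.Rz

private theorem w10_sum {X η ε₀ : ℝ} {A : ℕ} {w : ℕ → ℝ} {V : ℝ} (h : SW X η ε₀ A w V) (N : ℕ) :
    ∑ m ∈ (Osq ⌊X ^ η⌋₊).filter (fun m => Nat.Coprime m N), w m / m =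
      ∑ m ∈ (Icc 1 ⌊X ^ η⌋₊).filter (fun m => Nat.Coprime m N), w m / m := by
  apply Finset.sum_subset
  · intro m hm
    rw [Finset.mem_filter, Osq, Finset.mem_filter] at hm
    exact Finset.mem_filter.2 ⟨hm.1.1, hm.2⟩
  · intro m hm hm2
    rw [Finset.mem_filter] at hm
    have hw : w m = 0 := by
      by_contra hne
      obtain ⟨h1, h2, _⟩ := h.supp m hne
      exact hm2 (Finset.mem_filter.2 ⟨Finset.mem_filter.2 ⟨hm.1, h1, h2⟩, hm.2⟩)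
    rw [hw, zero_div]

theorem p_W10 (h4b : S_W4b) (h5 : S_W5) (h5b : S_W5b) : S_W10 := by
  intro θ₁ θ₂ δ η hθ₁ hθ₂ hδ hη hd1 hd2 c hc ρ₁ ρ₂ h₁ h₂ hρ₁ hρ₂ hh₁ hh₂ M C hC hM L hL ε hε
  obtain ⟨X₁, hX₁⟩ := h4b θ₁ θ₂ δ hθ₁ hθ₂ hδ hd1 hd2 c hc ρ₁ ρ₂ h₁ h₂ hρ₁ hρ₂ hh₁ hh₂
  obtain ⟨X₂, hX₂⟩ := hL (ε / 2) (by positivity)
  refine ⟨max (max X₁ X₂) (Real.exp (2 * C / ε + 1)), ?_⟩
  intro X hX ε₀ w V hw Y₁ hY₁ Y₂ hY₂
  have hXa : X₁ ≤ X := (le_max_left _ _).trans ((le_max_left _ _).trans hX)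
  have hXb : X₂ ≤ X := (le_max_right _ _).trans ((le_max_left _ _).trans hX)
  have hXc : Real.exp (2 * C / ε + 1) ≤ X := (le_max_right _ _).trans hX
  have hX0 : 0 < X := (Real.exp_pos _).trans_le hXc
  have hlog : 2 * C / ε + 1 ≤ Real.log X := (Real.le_log_iff_exp_le hX0).2 hXc
  have hCε : 0 ≤ 2 * C / ε := by positivity
  have hlog0 : 0 < Real.log X := by linarith
  have hV := hw.pos
  set W₁ := Wt c ρ₁ h₁ X θ₁ δ Y₁
  set W₂ := Wt c ρ₂ h₂ X θ₂ δ Y₂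
  set S : ℕ → ℝ := fun N => ∑ m ∈ (Osq ⌊X ^ η⌋₊).filter (fun m => Nat.Coprime m N), w m / m
    with hS
  set e : ℕ → ℝ := fun N => S N / V - gN N with he
  -- the identity
  have key : 1 / V * ∑ m ∈ Osq ⌊X ^ η⌋₊, w m / m * quad W₁ W₂ m ⌊X ^ 2⌋₊ (M X) =
      quad W₁ W₂ 1 ⌊X ^ 2⌋₊ (fun N => gN N * M X N) +
        quad W₁ W₂ 1 ⌊X ^ 2⌋₊ (fun N => e N * M X N) := by
    rw [h5 W₁ W₂ (Osq ⌊X ^ η⌋₊) (fun m => w m / m) ⌊X ^ 2⌋₊ (M X)]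
    rw [← (h5b W₁ W₂ 1 ⌊X ^ 2⌋₊ (fun N => gN N * M X N) (fun N => e N * M X N)).1]
    rw [← (h5b W₁ W₂ 1 ⌊X ^ 2⌋₊ (fun N => S N * M X N) (fun _ => 0)).2.1 (1 / V)]
    congr 1
    funext N
    simp only [he]
    ring
  -- the error term
  have herr : |quad W₁ W₂ 1 ⌊X ^ 2⌋₊ (fun N => e N * M X N)| ≤
      C / (Real.log X) ^ 274 * (Real.log X) ^ 273 := by
    refine hX₁ X hXa Y₁ hY₁ Y₂ hY₂ (fun N => e N * M X N) (C / (Real.log X) ^ 274)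
      (by positivity) ?_
    intro N hN hNX
    have h6 := hw.dens N hN hNX
    rw [← w10_sum hw N] at h6
    have h7 : |e N| ≤ 1 / (Real.log X) ^ 274 := by
      have h8 : e N = (S N - V * gN N) / V := by
        simp only [he]
        field_simp
      rw [h8, abs_div, abs_of_pos hV, div_le_iff₀ hV]
      calc |S N - V * gN N| ≤ V / (Real.log X) ^ 274 := h6
        _ = 1 / (Real.log X) ^ 274 * V := by ring
    rw [abs_mul]
    calc |e N| * |M X N| ≤ (1 / (Real.log X) ^ 274) *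
          (C * ((N.divisors.card : ℝ) / √(sq1 N : ℝ))) :=
          mul_le_mul h7 (hM N hN X hX0) (abs_nonneg _) (by positivity)
      _ = C / (Real.log X) ^ 274 * ((N.divisors.card : ℝ) / √(sq1 N : ℝ)) := by ring
  have herr2 : C / (Real.log X) ^ 274 * (Real.log X) ^ 273 ≤ ε / 2 := by
    have h9 : C / (Real.log X) ^ 274 * (Real.log X) ^ 273 = C / Real.log X := by
      have hne : Real.log X ≠ 0 := hlog0.ne'
      rw [show (274 : ℕ) = 273 + 1 from rfl, pow_succ, div_mul_eq_mul_div,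
        mul_comm C, mul_div_mul_left _ _ (pow_ne_zero _ hne)]
    rw [h9, div_le_iff₀ hlog0]
    have h10 : 2 * C / ε ≤ Real.log X := by linarith
    rw [div_le_iff₀ hε] at h10
    linarith
  have hmain := hX₂ X hXb Y₁ hY₁ Y₂ hY₂
  rw [key]
  calc |quad W₁ W₂ 1 ⌊X ^ 2⌋₊ (fun N => gN N * M X N) +
        quad W₁ W₂ 1 ⌊X ^ 2⌋₊ (fun N => e N * M X N) - L Y₁ Y₂|
      = |(quad W₁ W₂ 1 ⌊X ^ 2⌋₊ (fun N => gN N * M X N) - L Y₁ Y₂) +
        quad W₁ W₂ 1 ⌊X ^ 2⌋₊ (fun N => e N * M X N)| := by congr 1; ring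
    _ ≤ |quad W₁ W₂ 1 ⌊X ^ 2⌋₊ (fun N => gN N * M X N) - L Y₁ Y₂| +
        |quad W₁ W₂ 1 ⌊X ^ 2⌋₊ (fun N => e N * M X N)| := abs_add_le _ _
    _ ≤ ε / 2 + ε / 2 := add_le_add hmain (herr.trans herr2)
    _ = ε := add_halves ε

end Pool.Agent.MP0016c7.PC
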