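import Mathlib
import Pool.Agent.Lib.MP_0016c7_nt.PC.W.StmW2

set_option autoImplicit false

/-!
Block [W]: assembly of the second moment with the sieve weights.
-/

open Finset MeasureTheory Filter Topology
open scoped Real ContDiff

namespace Pool.Agent.MP0016c7.PC

open Pool.Agent.MP0016c7.Rz

/-- powers of the logarithm against a power -/
private lemma w11_log (η' : ℝ) (hη' : 0 < η') (ε : ℝ) (hε : 0 < ε) :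
    ∃ X₀ : ℝ, 1 < X₀ ∧ ∀ X : ℝ, X₀ ≤ X → (Real.log X) ^ (10 : ℝ) * X ^ (-η') ≤ ε := by
  have h1 : (fun X : ℝ => (Real.log X) ^ (10 : ℝ)) =o[atTop] fun X : ℝ => X ^ η' :=
    isLittleO_log_rpow_rpow_atTop 10 hη'
  have h2 := h1.def hε
  obtain ⟨X₁, hX₁⟩ := eventually_atTop.1 h2
  refine ⟨max X₁ 2, by have := le_max_right X₁ 2; linarith, fun X hX => ?_⟩
  have hXa : X₁ ≤ X := (le_max_left _ _).trans hX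
  have hX2 : 2 ≤ X := (le_max_right _ _).trans hX
  have hX0 : 0 < X := by linarith
  have hl : 0 ≤ Real.log X := Real.log_nonneg (by linarith)
  have h3 := hX₁ X hXa
  rw [Real.norm_eq_abs, Real.norm_eq_abs, abs_of_nonneg (Real.rpow_nonneg hl _),
    abs_of_nonneg (Real.rpow_nonneg hX0.le _)] at h3
  rw [Real.rpow_neg hX0.le]
  have h4 : 0 < X ^ η' := Real.rpow_pos_of_pos hX0 _
  rw [← div_eq_mul_inv, div_le_iff₀ h4]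
  exact h3

private lemma w11_osq {η X : ℝ} (hη : 0 < η) (hη2 : η < 1 / 2) (hX : 1 ≤ X) {m : ℕ}
    (hm : m ∈ Osq ⌊X ^ η⌋₊) : Odd m ∧ Squarefree m ∧ (m : ℝ) ^ 2 ≤ X := by
  unfold Osq at hm
  rw [mem_filter, mem_Icc] at hm
  obtain ⟨⟨h1, h2⟩, h3, h4⟩ := hm
  refine ⟨h3, h4, ?_⟩
  have hX0 : 0 < X := by linarith
  have h5 : (m : ℝ) ≤ X ^ η := (Nat.le_floor_iff (by positivity)).1 h2
  have h6 : X ^ η ≤ X ^ (1 / 2 : ℝ) := Real.rpow_le_rpow_of_exponent_le hX hη2.le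
  have h7 : (X ^ (1 / 2 : ℝ)) ^ 2 = X := by
    rw [← Real.rpow_natCast, ← Real.rpow_mul hX0.le]
    norm_num
  calc (m : ℝ) ^ 2 ≤ (X ^ (1 / 2 : ℝ)) ^ 2 := by
        refine pow_le_pow_left₀ (Nat.cast_nonneg _) (h5.trans h6) 2
    _ = X := h7

theorem p_W11 : S_W11 := by
  intro h4b h5b h6 h7 h8 h9 h10 hE hQ
  intro θ δ η hθ hδ hδ4 hη hlen R D c₀ σ hR hD hc₀ hσ hTw F a b ha hF hF0 a₀ ha₀ ρ₁ ρ₂ h₁ h₂ hρ₁ hρ₂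
    hh₁ hh₂ ε' hε'
  obtain ⟨β, B, M, c₁, c₂, c₃, k₁, k₂, k₃, C, hBC, hC0, hk₁, hk₂, hk₃, hc₁, hc₂, hc₃, hMR, hMabs,
    hsplit⟩ := hTw F a b ha hF hF0
  have hη2 : η < 1 / 2 := by linarith
  have hlen3 : θ + 3 * δ < 1 / 2 := by linarith
  set C₀ : ℝ := k₁ + k₂ + k₃ + 1 / k₁ + 1 / k₂ + 1 / k₃ with hC₀
  have q1 : 0 < 1 / k₁ := by positivity
  have q2 : 0 < 1 / k₂ := by positivity
  have q3 : 0 < 1 / k₃ := by positivity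
  have hC₀p : 0 < C₀ := by rw [hC₀]; positivity
  obtain ⟨ε₁, η₁, X₁, hε₁, hη₁, hX₁⟩ := hE θ δ η hθ hδ hη hlen F a b ha hF σ hσ a₀ ha₀ ρ₁ ρ₂ h₁ h₂
    hρ₁ hρ₂ hh₁ hh₂ C₀ hC₀p
  obtain ⟨ε₂, η₂, X₂, hε₂, hη₂, hX₂⟩ := h8 θ θ δ η hθ hθ hδ hη hlen hlen a₀ ha₀ ρ₁ ρ₂ h₁ h₂
    hρ₁ hρ₂ hh₁ hh₂ C hC0
  obtain ⟨C', hC', hgN⟩ := h9
  obtain ⟨X₃, hX₃⟩ := h7 R D hD F a b ha hF σ c₀ θ θ δ η hθ hθ hδ hη hlen3 hlen3 hη2 a₀ ha₀ ρ₁ ρ₂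
    h₁ h₂ hρ₁ hρ₂ hh₁ hh₂ (ε' / 8) (by linarith)
  obtain ⟨X₄, hX₄⟩ := h10 θ θ δ η hθ hθ hδ hη hlen3 hlen3 a₀ ha₀ ρ₁ ρ₂ h₁ h₂ hρ₁ hρ₂ hh₁ hh₂
    M C hC0 hMabs (fun Y₁ Y₂ => (∫ t, F t) * CC2 ρ₁ ρ₂ h₁ h₂ Y₁ Y₂) (by
      intro ε hε
      obtain ⟨X₀, hX₀⟩ := hQ β B hBC (∫ t, F t) δ θ θ hδ hδ4 hθ hθ hlen3 hlen3 a₀ ha₀ ρ₁ ρ₂ h₁ h₂
        hρ₁ hρ₂ hh₁ hh₂ (C * C') ε hε
      refine ⟨max X₀ 1, fun X hX Y₁ hY₁ Y₂ hY₂ => ?_⟩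
      have hX1 : 1 ≤ X := (le_max_right _ _).trans hX
      have hXp : 0 < X := by linarith
      refine hX₀ X ((le_max_left _ _).trans hX) (M X) (hMR X hXp) ?_ Y₁ hY₁ Y₂ hY₂
      intro N hN
      obtain ⟨g1, g2⟩ := hgN N hN
      rw [abs_mul, abs_of_pos g1]
      calc gN N * |M X N| ≤ gN N * (C * ((N.divisors.card : ℝ) / √(sq1 N : ℝ))) :=
            mul_le_mul_of_nonneg_left (hMabs N hN X hXp) g1.le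
        _ = C * (gN N * ((N.divisors.card : ℝ) / √(sq1 N : ℝ))) := by ring
        _ ≤ C * (C' * N) := mul_le_mul_of_nonneg_left g2 hC0
        _ = C * C' * N := by ring)
    (ε' / 8) (by linarith)
  obtain ⟨X₅, hX₅1, hX₅⟩ := w11_log η₁ hη₁ (ε' / 8) (by linarith)
  obtain ⟨X₆, hX₆1, hX₆⟩ := w11_log η₂ hη₂ (ε' / 8) (by linarith)
  refine ⟨min ε₁ (min ε₂ 1), 274, max (max (max X₁ X₂) (max X₃ X₄)) (max X₅ X₆),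
    lt_min hε₁ (lt_min hε₂ one_pos), fun X hX w V hSW Y₁ hY₁ Y₂ hY₂ => ?_⟩
  have hXa : X₁ ≤ X := le_trans (le_trans (le_trans (le_max_left _ _) (le_max_left _ _))
    (le_max_left _ _)) hX
  have hXb : X₂ ≤ X := le_trans (le_trans (le_trans (le_max_right _ _) (le_max_left _ _))
    (le_max_left _ _)) hX
  have hXc : X₃ ≤ X := le_trans (le_trans (le_trans (le_max_left _ _) (le_max_right _ _))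
    (le_max_left _ _)) hX
  have hXd : X₄ ≤ X := le_trans (le_trans (le_trans (le_max_right _ _) (le_max_right _ _))
    (le_max_left _ _)) hX
  have hXe : X₅ ≤ X := le_trans (le_trans (le_max_left _ _) (le_max_right _ _)) hX
  have hXf : X₆ ≤ X := le_trans (le_trans (le_max_right _ _) (le_max_right _ _)) hX
  have hX1 : 1 < X := lt_of_lt_of_le hX₅1 hXe
  have hXpos : 0 < X := by linarith
  have hlog : 0 < Real.log X := Real.log_pos hX1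
  have hV := hSW.pos
  have hVinv : 1 / V ≤ (Real.log X) ^ (10 : ℝ) := by
    have h1 := hSW.low
    rw [Real.rpow_neg hlog.le] at h1
    rw [div_le_iff₀ hV]
    have h2 : 0 < (Real.log X) ^ (10 : ℝ) := Real.rpow_pos_of_pos hlog _
    rw [inv_le_iff_one_le_mul₀ h2, mul_comm] at h1
    exact h1
  have hw₁ : ∀ m, |w m| ≤ X ^ ε₁ := fun m => (hSW.bd m).trans
    (Real.rpow_le_rpow_of_exponent_le hX1.le (min_le_left _ _))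
  have hw₂ : ∀ m, |w m| ≤ X ^ ε₂ := fun m => (hSW.bd m).trans
    (Real.rpow_le_rpow_of_exponent_le hX1.le ((min_le_right _ _).trans (min_le_left _ _)))
  -- (1)
  have s1 := hX₃ X hXc _ ((min_le_right _ _).trans (min_le_right _ _)) 274 w V hSW Y₁ hY₁ Y₂ hY₂
  -- (2)
  have s2 := h6 R D hD F a b ha hF σ c₀ w V (X ^ η) hSW.supp hV a₀ δ θ θ ρ₁ ρ₂ h₁ h₂ X hX1.le Y₁ Y₂
  set W₁ := Wt a₀ ρ₁ h₁ X θ δ Y₁ with hW₁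
  set W₂ := Wt a₀ ρ₂ h₂ X θ δ Y₂ with hW₂
  set E : ℕ → ℕ → ℝ := fun m N => PRw R D c₀ σ F m X N - (M X N + NSm F σ c₁ m (k₁ * X) N +
    NSm F σ c₂ m (k₂ * X) N + NSm F σ c₃ m (k₃ * X) N) with hEdef
  -- (3)
  have hdec : ∀ m : ℕ, quad W₁ W₂ m ⌊X ^ 2⌋₊ (PRw R D c₀ σ F m X) =
      quad W₁ W₂ m ⌊X ^ 2⌋₊ (M X) + quad W₁ W₂ m ⌊X ^ 2⌋₊ (NSm F σ c₁ m (k₁ * X)) +
      quad W₁ W₂ m ⌊X ^ 2⌋₊ (NSm F σ c₂ m (k₂ * X)) +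
      quad W₁ W₂ m ⌊X ^ 2⌋₊ (NSm F σ c₃ m (k₃ * X)) + quad W₁ W₂ m ⌊X ^ 2⌋₊ (E m) := by
    intro m
    rw [← (h5b W₁ W₂ m ⌊X ^ 2⌋₊ _ _).1, ← (h5b W₁ W₂ m ⌊X ^ 2⌋₊ _ _).1,
      ← (h5b W₁ W₂ m ⌊X ^ 2⌋₊ _ _).1, ← (h5b W₁ W₂ m ⌊X ^ 2⌋₊ _ _).1]
    congr 1
    funext N
    rw [hEdef]
    ring
  have hsum : ∑ m ∈ Osq ⌊X ^ η⌋₊, w m / m * quad W₁ W₂ m ⌊X ^ 2⌋₊ (PRw R D c₀ σ F m X) =
      ∑ m ∈ Osq ⌊X ^ η⌋₊, w m / m * quad W₁ W₂ m ⌊X ^ 2⌋₊ (M X) +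
      ∑ m ∈ Osq ⌊X ^ η⌋₊, w m / m * quad W₁ W₂ m ⌊X ^ 2⌋₊ (NSm F σ c₁ m (k₁ * X)) +
      ∑ m ∈ Osq ⌊X ^ η⌋₊, w m / m * quad W₁ W₂ m ⌊X ^ 2⌋₊ (NSm F σ c₂ m (k₂ * X)) +
      ∑ m ∈ Osq ⌊X ^ η⌋₊, w m / m * quad W₁ W₂ m ⌊X ^ 2⌋₊ (NSm F σ c₃ m (k₃ * X)) +
      ∑ m ∈ Osq ⌊X ^ η⌋₊, w m / m * quad W₁ W₂ m ⌊X ^ 2⌋₊ (E m) := by
    rw [← sum_add_distrib, ← sum_add_distrib, ← sum_add_distrib, ← sum_add_distrib]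
    refine sum_congr rfl fun m _ => ?_
    rw [hdec m]
    ring
  -- (4)
  have hk : ∀ k : ℝ, 0 < k → k ≤ C₀ → 1 / k ≤ C₀ → X / C₀ ≤ k * X ∧ k * X ≤ C₀ * X := by
    intro k hk0 hk1 hk2
    refine ⟨?_, mul_le_mul_of_nonneg_right hk1 hXpos.le⟩
    rw [div_le_iff₀ hC₀p]
    rw [div_le_iff₀ hk0] at hk2
    nlinarith
  have hb1 := hk k₁ hk₁ (by rw [hC₀]; linarith) (by rw [hC₀]; linarith)
  have hb2 := hk k₂ hk₂ (by rw [hC₀]; linarith) (by rw [hC₀]; linarith)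
  have hb3 := hk k₃ hk₃ (by rw [hC₀]; linarith) (by rw [hC₀]; linarith)
  have t1 := hX₁ X hXa Y₁ hY₁ Y₂ hY₂ c₁ hc₁ (k₁ * X) hb1.1 hb1.2 w hw₁
  have t2 := hX₁ X hXa Y₁ hY₁ Y₂ hY₂ c₂ hc₂ (k₂ * X) hb2.1 hb2.2 w hw₁
  have t3 := hX₁ X hXa Y₁ hY₁ Y₂ hY₂ c₃ hc₃ (k₃ * X) hb3.1 hb3.2 w hw₁
  have t4 := hX₂ X hXb Y₁ hY₁ Y₂ hY₂ E (by
    intro m hm N hN hmN
    obtain ⟨m1, m2, m3⟩ := w11_osq hη hη2 hX1.le hm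
    exact hsplit m m1 m2 N hN hmN X m3) w hw₂
  have t5 := hX₄ X hXd _ w V hSW Y₁ hY₁ Y₂ hY₂
  rw [← hW₁, ← hW₂] at t1 t2 t3 t4 t5
  have hsm : ∀ (S η' : ℝ), |S| ≤ X ^ (-η') → (Real.log X) ^ (10 : ℝ) * X ^ (-η') ≤ ε' / 8 →
      |1 / V * S| ≤ ε' / 8 := by
    intro S η' hS hl
    rw [abs_mul, abs_of_pos (by positivity : 0 < 1 / V)]
    refine le_trans (mul_le_mul hVinv hS (abs_nonneg _) (Real.rpow_nonneg hlog.le _)) hl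
  have u1 := hsm _ η₁ t1 (hX₅ X hXe)
  have u2 := hsm _ η₁ t2 (hX₅ X hXe)
  have u3 := hsm _ η₁ t3 (hX₅ X hXe)
  have u4 := hsm _ η₂ t4 (hX₆ X hXf)
  rw [s2, hsum] at s1
  simp only [mul_add] at s1
  rw [abs_le] at s1 t5 u1 u2 u3 u4 ⊢
  constructor <;> linarith only [hε', s1.1, s1.2, t5.1, t5.2, u1.1, u1.2, u2.1, u2.2, u3.1, u3.2,
    u4.1, u4.2]

theorem p_W_absq (h4b : S_W4b) : JF_absq := by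
  intro θ₁ θ₂ δ hθ₁ hθ₂ hδ hl₁ hl₂ c₀ hc₀ ρ₁ ρ₂ h₁ h₂ hρ₁ hρ₂ hh₁ hh₂
  obtain ⟨X₀, hX₀⟩ := h4b θ₁ θ₂ δ hθ₁ hθ₂ hδ hl₁ hl₂ c₀ hc₀ ρ₁ ρ₂ h₁ h₂ hρ₁ hρ₂ hh₁ hh₂
  exact ⟨273, X₀, hX₀⟩

end Pool.Agent.MP0016c7.PC
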