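import Pool.Agent.Lib.MP_0016c7_nt.PC.W.StmW2

set_option autoImplicit false

open Finset MeasureTheory Filter Topology
open scoped Real ContDiff

namespace Pool.Agent.MP0016c7.PC

open Pool.Agent.MP0016c7.Rz

theorem p_W2 : S_W2 := by
  intro M G hG
  rw [← Finset.sum_product']
  have hmaps : ∀ x ∈ Icc 1 M ×ˢ Icc 1 M, x.1 * x.2 ∈ Icc 1 (M ^ 2) := by
    intro x hx
    rw [Finset.mem_product, Finset.mem_Icc, Finset.mem_Icc] at hx
    rw [Finset.mem_Icc]
    refine ⟨Nat.mul_pos hx.1.1 hx.2.1, ?_⟩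
    rw [sq]
    exact Nat.mul_le_mul hx.1.2 hx.2.2
  rw [← Finset.sum_fiberwise_of_maps_to hmaps]
  refine Finset.sum_le_sum fun N hN => ?_
  rw [Finset.mem_Icc] at hN
  have h1 : ∑ x ∈ (Icc 1 M ×ˢ Icc 1 M) with x.1 * x.2 = N, G (x.1 * x.2) =
      ∑ x ∈ (Icc 1 M ×ˢ Icc 1 M) with x.1 * x.2 = N, G N := by
    refine Finset.sum_congr rfl fun x hx => ?_
    rw [Finset.mem_filter] at hx
    rw [hx.2]
  rw [h1, Finset.sum_const, nsmul_eq_mul]
  refine mul_le_mul_of_nonneg_right ?_ (hG N)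
  have h2 : ((Icc 1 M ×ˢ Icc 1 M).filter fun x : ℕ × ℕ => x.1 * x.2 = N).card ≤
      N.divisors.card := by
    refine Finset.card_le_card_of_injOn (fun x => x.1) ?_ ?_
    · intro x hx
      rw [Finset.mem_coe, Finset.mem_filter] at hx
      rw [Finset.mem_coe, Nat.mem_divisors]
      exact ⟨⟨x.2, hx.2.symm⟩, by omega⟩
    · intro x hx y hy h
      rw [Finset.mem_coe, Finset.mem_filter, Finset.mem_product, Finset.mem_Icc] at hx hy
      change x.1 = y.1 at h
      refine Prod.ext h ?_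
      have h3 : x.1 * x.2 = x.1 * y.2 := by rw [hx.2, h, hy.2]
      exact Nat.eq_of_mul_eq_mul_left hx.1.1.1 h3
  exact_mod_cast h2

end Pool.Agent.MP0016c7.PC
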