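import Pool.Agent.Lib.MP_0016c7_nt.PC.W.StmW2
import Pool.Agent.Lib.MP_0016c7_nt.Rz.ArithA1

set_option autoImplicit false

open Finset MeasureTheory Filter Topology
open scoped Real ContDiff

namespace Pool.Agent.MP0016c7.PC

open Pool.Agent.MP0016c7.Rz

private theorem w3_dmul (a b : ℕ) :
    ((a * b).divisors.card : ℝ) ≤ (a.divisors.card : ℝ) * b.divisors.card := by
  rw [Nat.divisors_mul]
  exact_mod_cast Finset.card_mul_le

theorem p_W3 (h1 : S_W1) : S_W3 := by
  intro k K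
  let F : ℕ × ℕ → ℝ := fun y => ((y.1.divisors.card : ℝ) ^ k / y.1) *
    ((y.2.divisors.card : ℝ) ^ (2 * k) / y.2)
  have hF : ∀ y, 0 ≤ F y := fun y => by positivity
  let φ : ℕ → ℕ × ℕ := fun N => (sq1 N, sq2 N)
  have hdec : ∀ N ∈ Icc 1 K, sq1 N * sq2 N ^ 2 = N := fun N hN => by
    rw [Finset.mem_Icc] at hN
    exact sq1_mul_sq2 N (by omega)
  have hinj : Set.InjOn φ (Icc 1 K : Finset ℕ) := by
    intro N hN N' hN' h
    simp only [φ, Prod.mk.injEq] at h
    rw [← hdec N hN, ← hdec N' hN', h.1, h.2]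
  have hterm : ∀ N ∈ Icc 1 K, (N.divisors.card : ℝ) ^ k / (√(N : ℝ) * √(sq1 N : ℝ)) ≤
      F (φ N) := by
    intro N hN
    have h2 := hdec N hN
    rw [Finset.mem_Icc] at hN
    set a := sq1 N
    set b := sq2 N
    have ha : 0 < a := by
      rcases Nat.eq_zero_or_pos a with h | h
      · rw [h, zero_mul] at h2; omega
      · exact h
    have hb : 0 < b := by
      rcases Nat.eq_zero_or_pos b with h | h
      · rw [h] at h2; norm_num at h2; omega
      · exact h
    have haR : (0 : ℝ) < a := by exact_mod_cast ha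
    have hbR : (0 : ℝ) < b := by exact_mod_cast hb
    have h3 : √(N : ℝ) * √(a : ℝ) = a * b := by
      rw [← Real.sqrt_mul (by positivity)]
      have h4 : (N : ℝ) * a = (a * b) ^ 2 := by
        rw [← h2]; push_cast; ring
      rw [h4, Real.sqrt_sq (by positivity)]
    have h5 : (N.divisors.card : ℝ) ≤ (a.divisors.card : ℝ) * (b.divisors.card : ℝ) ^ 2 := by
      have h6 := w3_dmul a (b ^ 2)
      rw [h2] at h6
      have h7 := w3_dmul b b
      rw [← sq b] at h7
      refine h6.trans (mul_le_mul_of_nonneg_left ?_ (by positivity))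
      rw [sq (b.divisors.card : ℝ)]
      exact h7
    rw [h3]
    change _ ≤ ((a.divisors.card : ℝ) ^ k / a) * ((b.divisors.card : ℝ) ^ (2 * k) / b)
    rw [div_mul_div_comm]
    refine div_le_div_of_nonneg_right ?_ (by positivity)
    rw [pow_mul, ← mul_pow]
    exact pow_le_pow_left₀ (by positivity) h5 k
  have h2 : ∑ N ∈ Icc 1 K, F (φ N) = ∑ y ∈ (Icc 1 K).image φ, F y := by
    rw [Finset.sum_image hinj]
  have h3 : (Icc 1 K).image φ ⊆ Icc 1 K ×ˢ Icc 1 K := by
    intro y hy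
    rw [Finset.mem_image] at hy
    obtain ⟨N, hN, rfl⟩ := hy
    have h4 := hdec N hN
    rw [Finset.mem_Icc] at hN
    have ha : 0 < sq1 N := by
      rcases Nat.eq_zero_or_pos (sq1 N) with h | h
      · rw [h, zero_mul] at h4; omega
      · exact h
    have hb : 0 < sq2 N := by
      rcases Nat.eq_zero_or_pos (sq2 N) with h | h
      · rw [h] at h4; norm_num at h4; omega
      · exact h
    simp only [φ, Finset.mem_product, Finset.mem_Icc]
    have h5 : sq1 N ≤ N := by nlinarith [pow_pos hb 2]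
    have h6 : sq2 N ≤ N := by nlinarith
    exact ⟨⟨ha, h5.trans hN.2⟩, hb, h6.trans hN.2⟩
  have hK : 0 ≤ 1 + Real.log K := by
    have := Real.log_natCast_nonneg K
    linarith
  calc ∑ N ∈ Icc 1 K, (N.divisors.card : ℝ) ^ k / (√(N : ℝ) * √(sq1 N : ℝ))
      ≤ ∑ N ∈ Icc 1 K, F (φ N) := Finset.sum_le_sum hterm
    _ = ∑ y ∈ (Icc 1 K).image φ, F y := h2
    _ ≤ ∑ y ∈ Icc 1 K ×ˢ Icc 1 K, F y :=
        Finset.sum_le_sum_of_subset_of_nonneg h3 fun y _ _ => hF y
    _ = (∑ a ∈ Icc 1 K, (a.divisors.card : ℝ) ^ k / a) *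
        (∑ b ∈ Icc 1 K, (b.divisors.card : ℝ) ^ (2 * k) / b) := by
        rw [Finset.sum_mul_sum, ← Finset.sum_product']
    _ ≤ (1 + Real.log K) ^ (2 ^ k) * (1 + Real.log K) ^ (2 ^ (2 * k)) := by
        refine mul_le_mul (h1 k K) (h1 (2 * k) K) ?_ (by positivity)
        exact Finset.sum_nonneg fun n _ => by positivity

end Pool.Agent.MP0016c7.PC
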