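import Mathlib
import Pool.Agent.Lib.MP_0016c7_nt.PC.W.StmW2

set_option autoImplicit false

/-!
Block [W], piece W4: the absolute quadruple sum.
-/

open Finset MeasureTheory Filter Topology
open scoped Real ContDiff

namespace Pool.Agent.MP0016c7.PC

open Pool.Agent.MP0016c7.Rz

private noncomputable def w4_G (N : ℕ) : ℝ := (N.divisors.card : ℝ) / (√(N : ℝ) * √(sq1 N : ℝ))

private theorem w4_G_nonneg (N : ℕ) : 0 ≤ w4_G N := by
  unfold w4_G
  positivity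

private theorem w4_dvd {a b : ℕ} (h : a ∣ b) (hb : b ≠ 0) :
    (a.divisors.card : ℝ) ≤ b.divisors.card := by
  exact_mod_cast card_le_card (Nat.divisors_subset_of_dvd hb h)

theorem p_W4 (h2 : S_W2) (h3 : S_W3) : S_W4 := by
  intro M
  have e0 : ∀ N : ℕ, (N.divisors.card : ℝ) / (√(N : ℝ) * √(sq1 N : ℝ)) = w4_G N := fun _ => rfl
  simp only [e0]
  calc ∑ n₁ ∈ Icc 1 M, ∑ l₁ ∈ Icc 1 M, ∑ n₂ ∈ Icc 1 M, ∑ l₂ ∈ Icc 1 M, w4_G (n₁ * l₁ * n₂ * l₂)
      ≤ ∑ n₁ ∈ Icc 1 M, ∑ l₁ ∈ Icc 1 M,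
          ∑ v ∈ Icc 1 (M ^ 2), (v.divisors.card : ℝ) * w4_G (n₁ * l₁ * v) := by
        refine sum_le_sum fun n₁ _ => sum_le_sum fun l₁ _ => ?_
        have h := h2 M (fun N => w4_G (n₁ * l₁ * N)) (fun N => w4_G_nonneg _)
        refine le_trans (le_of_eq ?_) h
        refine sum_congr rfl fun n₂ _ => sum_congr rfl fun l₂ _ => ?_
        rw [mul_assoc (n₁ * l₁)]
    _ ≤ ∑ u ∈ Icc 1 (M ^ 2), (u.divisors.card : ℝ) *
          ∑ v ∈ Icc 1 (M ^ 2), (v.divisors.card : ℝ) * w4_G (u * v) :=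
        h2 M (fun u => ∑ v ∈ Icc 1 (M ^ 2), (v.divisors.card : ℝ) * w4_G (u * v))
          (fun u => sum_nonneg fun v _ => mul_nonneg (Nat.cast_nonneg _) (w4_G_nonneg _))
    _ ≤ ∑ u ∈ Icc 1 (M ^ 2), ∑ v ∈ Icc 1 (M ^ 2),
          ((u * v).divisors.card : ℝ) ^ 2 * w4_G (u * v) := by
        refine sum_le_sum fun u hu => ?_
        rw [mul_sum]
        refine sum_le_sum fun v hv => ?_
        have hu1 := (mem_Icc.1 hu).1
        have hv1 := (mem_Icc.1 hv).1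
        have hne : u * v ≠ 0 := Nat.mul_ne_zero (by omega) (by omega)
        have k1 := w4_dvd (Dvd.intro v rfl) hne
        have k2 := w4_dvd (Dvd.intro_left u rfl) hne
        rw [← mul_assoc, sq]
        exact mul_le_mul_of_nonneg_right (mul_le_mul k1 k2 (Nat.cast_nonneg _)
          (Nat.cast_nonneg _)) (w4_G_nonneg _)
    _ ≤ ∑ N ∈ Icc 1 ((M ^ 2) ^ 2), (N.divisors.card : ℝ) *
          ((N.divisors.card : ℝ) ^ 2 * w4_G N) :=
        h2 (M ^ 2) (fun N => (N.divisors.card : ℝ) ^ 2 * w4_G N)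
          (fun N => mul_nonneg (by positivity) (w4_G_nonneg _))
    _ = ∑ N ∈ Icc 1 ((M ^ 2) ^ 2),
          (N.divisors.card : ℝ) ^ 4 / (√(N : ℝ) * √(sq1 N : ℝ)) := by
        refine sum_congr rfl fun N _ => ?_
        unfold w4_G
        ring
    _ ≤ (1 + Real.log (((M ^ 2) ^ 2 : ℕ) : ℝ)) ^ (2 ^ 4) *
          (1 + Real.log (((M ^ 2) ^ 2 : ℕ) : ℝ)) ^ (2 ^ (2 * 4)) := h3 4 ((M ^ 2) ^ 2)
    _ = (1 + 4 * Real.log M) ^ 272 := by
        have hl : Real.log (((M ^ 2) ^ 2 : ℕ) : ℝ) = 4 * Real.log M := by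
          push_cast
          rw [← pow_mul, Real.log_pow]
          norm_num
        rw [hl, ← pow_add, show (2 ^ 4 + 2 ^ (2 * 4) : ℕ) = 272 by norm_num]

end Pool.Agent.MP0016c7.PC
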