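import Pool.Agent.Lib.MP_0016c7_nt.PC.W.StmW2
import Pool.Agent.Lib.MP_0016c7_nt.Rz.LipWt

set_option autoImplicit false

/-!
Block [W], piece W4b: the absolute size of the quadruple sums.
-/

open Finset MeasureTheory Filter Topology
open scoped Real ContDiff

namespace Pool.Agent.MP0016c7.PC

open Pool.Agent.MP0016c7.Rz

private theorem w4b_sum (M : ℕ) (B : ℝ) (G H : ℕ → ℕ → ℕ → ℕ → ℝ)
    (h : ∀ n₁ ∈ Icc 1 M, ∀ l₁ ∈ Icc 1 M, ∀ n₂ ∈ Icc 1 M, ∀ l₂ ∈ Icc 1 M,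
      |G n₁ l₁ n₂ l₂| ≤ B * H n₁ l₁ n₂ l₂) :
    |∑ n₁ ∈ Icc 1 M, ∑ l₁ ∈ Icc 1 M, ∑ n₂ ∈ Icc 1 M, ∑ l₂ ∈ Icc 1 M, G n₁ l₁ n₂ l₂| ≤
      B * ∑ n₁ ∈ Icc 1 M, ∑ l₁ ∈ Icc 1 M, ∑ n₂ ∈ Icc 1 M, ∑ l₂ ∈ Icc 1 M, H n₁ l₁ n₂ l₂ := by
  have h1 : |∑ n₁ ∈ Icc 1 M, ∑ l₁ ∈ Icc 1 M, ∑ n₂ ∈ Icc 1 M, ∑ l₂ ∈ Icc 1 M, G n₁ l₁ n₂ l₂| ≤
      ∑ n₁ ∈ Icc 1 M, ∑ l₁ ∈ Icc 1 M, ∑ n₂ ∈ Icc 1 M, ∑ l₂ ∈ Icc 1 M,
        B * H n₁ l₁ n₂ l₂ := by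
    refine (Finset.abs_sum_le_sum_abs _ _).trans (Finset.sum_le_sum fun n₁ hn₁ => ?_)
    refine (Finset.abs_sum_le_sum_abs _ _).trans (Finset.sum_le_sum fun l₁ hl₁ => ?_)
    refine (Finset.abs_sum_le_sum_abs _ _).trans (Finset.sum_le_sum fun n₂ hn₂ => ?_)
    refine (Finset.abs_sum_le_sum_abs _ _).trans (Finset.sum_le_sum fun l₂ hl₂ => ?_)
    exact h n₁ hn₁ l₁ hl₁ n₂ hn₂ l₂ hl₂
  refine h1.trans (le_of_eq ?_)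
  simp only [← Finset.mul_sum]

theorem p_W4b (h4 : S_W4) : S_W4b := by
  intro θ₁ θ₂ δ hθ₁ hθ₂ hδ hθ₁' hθ₂' c hc ρ₁ ρ₂ h₁ h₂ hρ₁ hρ₂ hh₁ hh₂
  obtain ⟨C₁, X₁, hC₁, hW₁⟩ := lipW_Wt θ₁ δ hθ₁ hδ hθ₁' c hc hρ₁ hh₁
  obtain ⟨C₂, X₂, hC₂, hW₂⟩ := lipW_Wt θ₂ δ hθ₂ hδ hθ₂' c hc hρ₂ hh₂
  obtain ⟨K, hK⟩ : ∃ K : ℝ, K = C₁ * C₂ * 9 ^ 272 := ⟨_, rfl⟩
  refine ⟨max (max X₁ X₂) (max (Real.exp 1) (Real.exp K)), ?_⟩
  intro X hX Y₁ hY₁ Y₂ hY₂ F e he hF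
  have hXX₁ : X₁ ≤ X := le_trans (le_trans (le_max_left _ _) (le_max_left _ _)) hX
  have hXX₂ : X₂ ≤ X := le_trans (le_trans (le_max_right _ _) (le_max_left _ _)) hX
  have hXe : Real.exp 1 ≤ X := le_trans (le_trans (le_max_left _ _) (le_max_right _ _)) hX
  have hXK : Real.exp K ≤ X := le_trans (le_trans (le_max_right _ _) (le_max_right _ _)) hX
  have hX0 : 0 < X := lt_of_lt_of_le (Real.exp_pos 1) hXe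
  have hL1 : 1 ≤ Real.log X := by
    rw [Real.le_log_iff_exp_le hX0]
    exact hXe
  have hLK : K ≤ Real.log X := by
    rw [Real.le_log_iff_exp_le hX0]
    exact hXK
  have hX1 : 1 ≤ X := by
    have := Real.add_one_le_exp (1 : ℝ)
    linarith
  have hW₁' := hW₁ X hXX₁ Y₁ hY₁
  have hW₂' := hW₂ X hXX₂ Y₂ hY₂
  set M := ⌊X ^ 2⌋₊ with hM
  have hlogM : Real.log M ≤ 2 * Real.log X := by
    rcases Nat.eq_zero_or_pos M with h0 | h0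
    · rw [h0]
      simp only [Nat.cast_zero, Real.log_zero]
      linarith
    · have h1 : (M : ℝ) ≤ X ^ 2 := Nat.floor_le (by positivity)
      have h2 : (0 : ℝ) < M := by exact_mod_cast h0
      calc Real.log M ≤ Real.log (X ^ 2) := Real.log_le_log h2 h1
        _ = 2 * Real.log X := by rw [Real.log_pow]; norm_num
  have hlogM0 : 0 ≤ Real.log M := Real.log_natCast_nonneg M
  have hexp : ∀ θ : ℝ, θ + 3 * δ < 1 / 2 → X ^ (1 / 2 + (θ + 3 * δ)) ≤ X := by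
    intro θ hθ
    calc X ^ (1 / 2 + (θ + 3 * δ)) ≤ X ^ (1 : ℝ) :=
          Real.rpow_le_rpow_of_exponent_le hX1 (by linarith)
      _ = X := Real.rpow_one X
  have hmain : |quad (Wt c ρ₁ h₁ X θ₁ δ Y₁) (Wt c ρ₂ h₂ X θ₂ δ Y₂) 1 M F| ≤
      (C₁ * C₂ * e) * ∑ n₁ ∈ Icc 1 M, ∑ l₁ ∈ Icc 1 M, ∑ n₂ ∈ Icc 1 M, ∑ l₂ ∈ Icc 1 M,
        ((n₁ * l₁ * n₂ * l₂).divisors.card : ℝ) /
          (√((n₁ * l₁ * n₂ * l₂ : ℕ) : ℝ) * √(sq1 (n₁ * l₁ * n₂ * l₂) : ℝ)) := by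
    unfold quad
    refine w4b_sum M _ _ (fun n₁ l₁ n₂ l₂ => ((n₁ * l₁ * n₂ * l₂).divisors.card : ℝ) /
          (√((n₁ * l₁ * n₂ * l₂ : ℕ) : ℝ) * √(sq1 (n₁ * l₁ * n₂ * l₂) : ℝ))) ?_
    intro n₁ hn₁ l₁ hl₁ n₂ hn₂ l₂ hl₂
    rw [Finset.mem_Icc] at hn₁ hl₁ hn₂ hl₂
    have p1 : (0 : ℝ) < n₁ := by exact_mod_cast hn₁.1
    have p2 : (0 : ℝ) < l₁ := by exact_mod_cast hl₁.1
    have p3 : (0 : ℝ) < n₂ := by exact_mod_cast hn₂.1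
    have p4 : (0 : ℝ) < l₂ := by exact_mod_cast hl₂.1
    have hR : 0 ≤ C₁ * C₂ * e * (((n₁ * l₁ * n₂ * l₂).divisors.card : ℝ) /
          (√((n₁ * l₁ * n₂ * l₂ : ℕ) : ℝ) * √(sq1 (n₁ * l₁ * n₂ * l₂) : ℝ))) := by
      positivity
    split_ifs with hcop
    swap
    · rw [abs_zero]; exact hR
    by_cases hz1 : X ^ (1 / 2 + (θ₁ + 3 * δ)) < (l₁ : ℝ) * n₁
    · rw [hW₁'.supp₂ l₁ n₁ hz1]
      simpa using hR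
    by_cases hz2 : X ^ (1 / 2 + (θ₂ + 3 * δ)) < (l₂ : ℝ) * n₂
    · rw [hW₂'.supp₂ l₂ n₂ hz2]
      simpa using hR
    rw [not_lt] at hz1 hz2
    obtain ⟨N, hN⟩ : ∃ N : ℕ, N = n₁ * l₁ * n₂ * l₂ := ⟨_, rfl⟩
    rw [← hN] at hcop hR ⊢
    have hNr : (N : ℝ) = (n₁ : ℝ) * l₁ * n₂ * l₂ := by rw [hN]; push_cast; ring
    have hN0 : (0 : ℝ) < N := by rw [hNr]; positivity
    have hNX : (N : ℝ) ≤ X ^ 4 := by
      calc (N : ℝ) = ((l₁ : ℝ) * n₁) * ((l₂ : ℝ) * n₂) := by rw [hNr]; ring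
        _ ≤ X * X := mul_le_mul (hz1.trans (hexp θ₁ hθ₁')) (hz2.trans (hexp θ₂ hθ₂'))
            (by positivity) hX0.le
        _ = X ^ 2 := by ring
        _ ≤ X ^ 4 := pow_le_pow_right₀ hX1 (by norm_num)
    have hNodd : Odd N := by
      have h2 : Nat.Coprime N 2 := by simpa using hcop
      exact Nat.coprime_two_right.mp h2
    have hFN := hF N hNodd hNX
    have hmu : ∀ l : ℕ, |(ArithmeticFunction.moebius l : ℝ)| ≤ 1 := by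
      intro l
      have := ArithmeticFunction.abs_moebius_le_one (n := l)
      exact_mod_cast this
    have e1 : |(ArithmeticFunction.moebius l₁ : ℝ) * (ArithmeticFunction.moebius l₂ : ℝ) *
        Wt c ρ₁ h₁ X θ₁ δ Y₁ l₁ n₁ * Wt c ρ₂ h₂ X θ₂ δ Y₂ l₂ n₂ / √(N : ℝ) * F N| =
        (|(ArithmeticFunction.moebius l₁ : ℝ)| * |(ArithmeticFunction.moebius l₂ : ℝ)|) *
        (|Wt c ρ₁ h₁ X θ₁ δ Y₁ l₁ n₁| * |Wt c ρ₂ h₂ X θ₂ δ Y₂ l₂ n₂|) * (1 / √(N : ℝ)) * |F N| := by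
      rw [abs_mul, abs_div, abs_mul, abs_mul, abs_mul, abs_of_nonneg (Real.sqrt_nonneg _)]
      ring
    rw [e1]
    have h1 : |(ArithmeticFunction.moebius l₁ : ℝ)| * |(ArithmeticFunction.moebius l₂ : ℝ)| ≤ 1 := by
      have := mul_le_mul (hmu l₁) (hmu l₂) (abs_nonneg _) zero_le_one
      simpa using this
    have h2 : |Wt c ρ₁ h₁ X θ₁ δ Y₁ l₁ n₁| * |Wt c ρ₂ h₂ X θ₂ δ Y₂ l₂ n₂| ≤ C₁ * C₂ :=
      mul_le_mul (hW₁'.bd l₁ n₁) (hW₂'.bd l₂ n₂) (abs_nonneg _) hC₁.le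
    calc _ ≤ 1 * (C₁ * C₂) * (1 / √(N : ℝ)) * (e * ((N.divisors.card : ℝ) / √(sq1 N : ℝ))) := by
          gcongr
      _ = C₁ * C₂ * e * ((N.divisors.card : ℝ) / (√(N : ℝ) * √(sq1 N : ℝ))) := by
          rw [div_mul_eq_div_div]
          ring
  have hB0 : 0 ≤ C₁ * C₂ * e := by positivity
  refine hmain.trans ((mul_le_mul_of_nonneg_left (h4 M) hB0).trans ?_)
  have h5 : (1 + 4 * Real.log M) ^ 272 ≤ (9 * Real.log X) ^ 272 :=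
    pow_le_pow_left₀ (by linarith) (by linarith) 272
  calc C₁ * C₂ * e * (1 + 4 * Real.log M) ^ 272 ≤ C₁ * C₂ * e * (9 * Real.log X) ^ 272 :=
        mul_le_mul_of_nonneg_left h5 hB0
    _ = e * (Real.log X) ^ 272 * K := by rw [hK, mul_pow]; ring
    _ ≤ e * (Real.log X) ^ 272 * Real.log X :=
        mul_le_mul_of_nonneg_left hLK (by positivity)
    _ = e * (Real.log X) ^ 273 := by ring

end Pool.Agent.MP0016c7.PC
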