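import Mathlib
import Pool.Agent.Lib.MP_0016c7_nt.PC.W.StmW2

set_option autoImplicit false

open Finset MeasureTheory Filter Topology
open scoped Real ContDiff

namespace Pool.Agent.MP0016c7.PC

open Pool.Agent.MP0016c7.Rz

theorem p_W5 : S_W5 := by
  intro W₁ W₂ S a K f
  have e1 : ∀ (r : ℕ) (g : ℕ → ℝ), quad W₁ W₂ r K g =
      ∑ q ∈ (Icc 1 K ×ˢ Icc 1 K) ×ˢ (Icc 1 K ×ˢ Icc 1 K),
        if Nat.Coprime (q.1.1 * q.1.2 * q.2.1 * q.2.2) (2 * r) then
        (ArithmeticFunction.moebius q.1.2 : ℝ) * (ArithmeticFunction.moebius q.2.2 : ℝ) *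
          W₁ q.1.2 q.1.1 * W₂ q.2.2 q.2.1 / √((q.1.1 * q.1.2 * q.2.1 * q.2.2 : ℕ) : ℝ) *
            g (q.1.1 * q.1.2 * q.2.1 * q.2.2)
        else 0 := by
    intro r g
    unfold quad
    rw [sum_product, sum_product]
    refine sum_congr rfl fun n₁ _ => sum_congr rfl fun l₁ _ => ?_
    rw [sum_product]
  simp only [e1]
  simp only [mul_sum]
  rw [sum_comm]
  refine sum_congr rfl fun q _ => ?_
  set N : ℕ := q.1.1 * q.1.2 * q.2.1 * q.2.2 with hN
  have hc : ∀ m : ℕ, Nat.Coprime N (2 * m) ↔ (Nat.Coprime N (2 * 1) ∧ Nat.Coprime m N) := by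
    intro m
    rw [Nat.coprime_mul_iff_right, mul_one, Nat.coprime_comm (m := m) (n := N)]
  by_cases h2 : Nat.Coprime N (2 * 1)
  · rw [if_pos h2, sum_filter, sum_mul, mul_sum]
    refine sum_congr rfl fun m _ => ?_
    by_cases hm : Nat.Coprime m N
    · rw [if_pos ((hc m).2 ⟨h2, hm⟩), if_pos hm]
      ring
    · rw [if_neg (fun h => hm ((hc m).1 h).2), if_neg hm]
      ring
  · rw [if_neg h2]
    refine sum_eq_zero fun m _ => ?_
    rw [if_neg (fun h => h2 ((hc m).1 h).1), mul_zero]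

theorem p_W5b : S_W5b := by
  intro W₁ W₂ r K f g
  refine ⟨?_, ?_, ?_⟩
  · unfold quad
    simp only [← sum_add_distrib]
    refine sum_congr rfl fun n₁ _ => sum_congr rfl fun l₁ _ => sum_congr rfl fun n₂ _ =>
      sum_congr rfl fun l₂ _ => ?_
    split_ifs
    · ring
    · rw [add_zero]
  · intro a
    unfold quad
    simp only [mul_sum]
    refine sum_congr rfl fun n₁ _ => sum_congr rfl fun l₁ _ => sum_congr rfl fun n₂ _ =>
      sum_congr rfl fun l₂ _ => ?_
    split_ifs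
    · ring
    · rw [mul_zero]
  · intro h
    unfold quad
    refine sum_congr rfl fun n₁ _ => sum_congr rfl fun l₁ _ => sum_congr rfl fun n₂ _ =>
      sum_congr rfl fun l₂ _ => ?_
    split_ifs with hc
    · rw [h _ hc]
    · rfl

end Pool.Agent.MP0016c7.PC
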