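import Mathlib
import Pool.Agent.Lib.MP_0016c7_nt.PC.W.StmW2

set_option autoImplicit false

/-!
Block [W], piece [W6]: the average of the truncated processes with the sieve weights.
-/

open Finset MeasureTheory Filter Topology
open scoped Real ContDiff

namespace Pool.Agent.MP0016c7.PC

open Pool.Agent.MP0016c7.Rz

private lemma w6_jr_mul (k : ℤ) (m n : ℕ) : jr k (m * n) = jr k m * jr k n := by
  unfold jr
  by_cases hm : Odd m
  · by_cases hn : Odd n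
    · have hmn : Odd (m * n) := hm.mul hn
      have : NeZero m := ⟨hm.pos.ne'⟩
      have : NeZero n := ⟨hn.pos.ne'⟩
      rw [if_pos hm, if_pos hn, if_pos hmn, jacobiSym.mul_right]
      push_cast
      ring
    · have hmn : ¬ Odd (m * n) := fun h => hn (Nat.odd_mul.1 h).2
      rw [if_neg hn, if_neg hmn, mul_zero]
  · have hmn : ¬ Odd (m * n) := fun h => hm (Nat.odd_mul.1 h).1
    rw [if_neg hm, if_neg hmn, zero_mul]

/-- The symbol vanishes unless `N` is odd and coprime to `m`, for `m ∣ d`. -/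
private lemma w6_jr_zero (σ : ℤ) (c₀ d m N : ℕ) (hm : m ∣ d) (hN : ¬ Nat.Coprime N (2 * m)) :
    jr (2 * σ * ((c₀ * d : ℕ) : ℤ)) N = 0 := by
  unfold jr
  by_cases ho : Odd N
  · have : NeZero N := ⟨ho.pos.ne'⟩
    rw [if_pos ho]
    have hcop : ¬ Nat.Coprime N m := by
      intro h
      exact hN (Nat.Coprime.mul_right (Nat.coprime_two_right.2 ho) h)
    have h0 : jacobiSym (2 * σ * ((c₀ * d : ℕ) : ℤ)) N = 0 := by
      rw [jacobiSym.eq_zero_iff_not_coprime]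
      intro h
      apply hcop
      have h1 : IsCoprime (2 * σ * ((c₀ * d : ℕ) : ℤ)) (N : ℤ) := Int.isCoprime_iff_gcd_eq_one.2 h
      have h2 : (m : ℤ) ∣ 2 * σ * ((c₀ * d : ℕ) : ℤ) := by
        obtain ⟨e, rfl⟩ := hm
        exact ⟨2 * σ * c₀ * e, by push_cast; ring⟩
      have h3 : IsCoprime (m : ℤ) (N : ℤ) := h1.of_isCoprime_of_dvd_left h2
      exact (Nat.isCoprime_iff_coprime.1 h3).symm
    rw [h0]
    simp
  · rw [if_neg ho]

private lemma w6_sum {F : ℝ → ℝ} {a b : ℝ} (hF : Bump F a b) {Y : ℝ} (hY : 0 < Y)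
    (P : ℕ → Prop) [DecidablePred P] (g : ℕ → ℝ) :
    ∑' d : ℕ, (if P d then F (d / Y) * g d else 0) =
      ∑ d ∈ Finset.range (⌈b * Y⌉₊ + 1), (if P d then F (d / Y) * g d else 0) := by
  apply tsum_eq_sum
  intro d hd
  have hd' : ⌈b * Y⌉₊ + 1 ≤ d := by simpa using hd
  have h1 : b * Y ≤ (d : ℝ) := by
    calc b * Y ≤ (⌈b * Y⌉₊ : ℝ) := Nat.le_ceil _
      _ ≤ d := by exact_mod_cast (by omega : ⌈b * Y⌉₊ ≤ d)
  have h2 : F (d / Y) = 0 := by
    by_contra h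
    have := (hF.supp _ h).2
    rw [div_lt_iff₀ hY] at this
    linarith
  rw [h2]
  simp

private lemma w6_quad_add (W₁ W₂ : ℕ → ℕ → ℝ) (r K : ℕ) (f g : ℕ → ℝ) :
    quad W₁ W₂ r K (fun N => f N + g N) = quad W₁ W₂ r K f + quad W₁ W₂ r K g := by
  unfold quad
  simp only [← Finset.sum_add_distrib]
  refine Finset.sum_congr rfl fun n₁ _ => Finset.sum_congr rfl fun l₁ _ =>
    Finset.sum_congr rfl fun n₂ _ => Finset.sum_congr rfl fun l₂ _ => ?_
  split_ifs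
  · ring
  · simp

private lemma w6_quad_smul (W₁ W₂ : ℕ → ℕ → ℝ) (r K : ℕ) (a : ℝ) (f : ℕ → ℝ) :
    quad W₁ W₂ r K (fun N => a * f N) = a * quad W₁ W₂ r K f := by
  unfold quad
  simp only [Finset.mul_sum]
  refine Finset.sum_congr rfl fun n₁ _ => Finset.sum_congr rfl fun l₁ _ =>
    Finset.sum_congr rfl fun n₂ _ => Finset.sum_congr rfl fun l₂ _ => ?_
  split_ifs
  · ring
  · simp

private lemma w6_quad_zero (W₁ W₂ : ℕ → ℕ → ℝ) (r K : ℕ) :
    quad W₁ W₂ r K (fun _ => 0) = 0 := by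
  have := w6_quad_smul W₁ W₂ r K 0 (fun _ => 0)
  simpa using this

private lemma w6_quad_sum (W₁ W₂ : ℕ → ℕ → ℝ) (r K : ℕ) (S : Finset ℕ) (f : ℕ → ℕ → ℝ) :
    quad W₁ W₂ r K (fun N => ∑ d ∈ S, f d N) = ∑ d ∈ S, quad W₁ W₂ r K (f d) := by
  induction S using Finset.induction_on with
  | empty => simp [w6_quad_zero]
  | insert x T hx ih =>
    simp only [Finset.sum_insert hx]
    rw [w6_quad_add, ih]

/-- The product of the two truncated processes is a quadruple sum; for `m ∣ d` the coprimality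
to `2 m` can be inserted. -/
private lemma w6_prod (σ : ℤ) (c₀ d m : ℕ) (hm : m ∣ d) (c δ θ₁ θ₂ : ℝ) (ρ₁ ρ₂ h₁ h₂ : ℝ → ℝ)
    (X Y₁ Y₂ : ℝ) :
    TT c σ ρ₁ h₁ X θ₁ δ (c₀ * d) Y₁ * TT c σ ρ₂ h₂ X θ₂ δ (c₀ * d) Y₂ =
      quad (Wt c ρ₁ h₁ X θ₁ δ Y₁) (Wt c ρ₂ h₂ X θ₂ δ Y₂) m ⌊X ^ 2⌋₊
        (fun N => jr (2 * σ * ((c₀ * d : ℕ) : ℤ)) N) := by
  unfold TT quad
  rw [Finset.sum_mul]
  refine Finset.sum_congr rfl fun n₁ _ => ?_
  rw [Finset.sum_mul]
  refine Finset.sum_congr rfl fun l₁ _ => ?_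
  rw [Finset.mul_sum]
  refine Finset.sum_congr rfl fun n₂ _ => ?_
  rw [Finset.mul_sum]
  refine Finset.sum_congr rfl fun l₂ _ => ?_
  have e1 : jr (2 * σ * ((c₀ * d : ℕ) : ℤ)) (n₁ * l₁) *
      jr (2 * σ * ((c₀ * d : ℕ) : ℤ)) (n₂ * l₂) =
      jr (2 * σ * ((c₀ * d : ℕ) : ℤ)) (n₁ * l₁ * n₂ * l₂) := by
    rw [← w6_jr_mul]
    congr 1
    ring
  have e2 : √((n₁ * l₁ : ℕ) : ℝ) * √((n₂ * l₂ : ℕ) : ℝ) = √((n₁ * l₁ * n₂ * l₂ : ℕ) : ℝ) := by
    rw [← Real.sqrt_mul (by positivity)]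
    congr 1
    push_cast
    ring
  have e3 : (ArithmeticFunction.moebius l₁ : ℝ) *
        jr (2 * σ * ((c₀ * d : ℕ) : ℤ)) (n₁ * l₁) /
        √((n₁ * l₁ : ℕ) : ℝ) * Wt c ρ₁ h₁ X θ₁ δ Y₁ l₁ n₁ *
      ((ArithmeticFunction.moebius l₂ : ℝ) *
        jr (2 * σ * ((c₀ * d : ℕ) : ℤ)) (n₂ * l₂) /
        √((n₂ * l₂ : ℕ) : ℝ) * Wt c ρ₂ h₂ X θ₂ δ Y₂ l₂ n₂) =
      (ArithmeticFunction.moebius l₁ : ℝ) * (ArithmeticFunction.moebius l₂ : ℝ) *
      Wt c ρ₁ h₁ X θ₁ δ Y₁ l₁ n₁ * Wt c ρ₂ h₂ X θ₂ δ Y₂ l₂ n₂ /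
        (√((n₁ * l₁ : ℕ) : ℝ) * √((n₂ * l₂ : ℕ) : ℝ)) *
      (jr (2 * σ * ((c₀ * d : ℕ) : ℤ)) (n₁ * l₁) *
        jr (2 * σ * ((c₀ * d : ℕ) : ℤ)) (n₂ * l₂)) := by
    ring
  rw [e3, e1, e2]
  by_cases hc : Nat.Coprime (n₁ * l₁ * n₂ * l₂) (2 * m)
  · rw [if_pos hc]
  · rw [if_neg hc, w6_jr_zero σ c₀ d m _ hm hc, mul_zero]

theorem p_W6 : S_W6 := by
  classical
  intro R D hD F a b ha hF σ c₀ w V K hw hV c δ θ₁ θ₂ ρ₁ ρ₂ h₁ h₂ X hX Y₁ Y₂
  have hX0 : 0 < X := by linarith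
  set M := ⌊X ^ 2⌋₊ with hM
  set W₁ := Wt c ρ₁ h₁ X θ₁ δ Y₁ with hW₁
  set W₂ := Wt c ρ₂ h₂ X θ₂ δ Y₂ with hW₂
  set P : ℕ → ℝ := fun d => TT c σ ρ₁ h₁ X θ₁ δ (c₀ * d) Y₁ * TT c σ ρ₂ h₂ X θ₂ δ (c₀ * d) Y₂
    with hP
  set S := Finset.range (⌈b * X⌉₊ + 1) with hS
  have hF0 : F 0 = 0 := by
    by_contra h
    have := (hF.supp _ h).1
    linarith
  -- the divisor sum of the weights
  have hdiv : ∀ d : ℕ, 0 < d → ∑ m ∈ d.divisors, w m =
      ∑ m ∈ Osq ⌊K⌋₊, if m ∣ d then w m else 0 := by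
    intro d hd
    rw [← Finset.sum_filter]
    symm
    apply Finset.sum_subset_zero_on_sdiff (s₁ := (Osq ⌊K⌋₊).filter (fun m => m ∣ d))
      (s₂ := d.divisors)
    · intro m hm
      rw [Finset.mem_filter] at hm
      exact Nat.mem_divisors.2 ⟨hm.2, hd.ne'⟩
    · intro m hm
      rw [Finset.mem_sdiff, Nat.mem_divisors] at hm
      by_contra h
      obtain ⟨h1, h2, h3⟩ := hw m h
      apply hm.2
      rw [Finset.mem_filter]
      refine ⟨?_, hm.1.1⟩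
      unfold Osq
      rw [Finset.mem_filter, Finset.mem_Icc]
      exact ⟨⟨h1.pos, Nat.le_floor h3⟩, h1, h2⟩
    · intro m _
      rfl
  -- the left side
  have hL : ∑' d : ℕ, (@ite ℝ (R d) (Classical.dec _)
        ((∑ m ∈ d.divisors, w m) * F (d / X) * P d) 0) =
      ∑ m ∈ Osq ⌊K⌋₊, w m * ∑ d ∈ S, (if R d ∧ m ∣ d then F (d / X) * P d else 0) := by
    have h1 : ∀ d : ℕ, (@ite ℝ (R d) (Classical.dec _)
        ((∑ m ∈ d.divisors, w m) * F (d / X) * P d) 0) =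
        if R d then F (d / X) * ((∑ m ∈ d.divisors, w m) * P d) else 0 := by
      intro d
      by_cases hd : R d
      · rw [if_pos hd, if_pos hd]
        ring
      · rw [if_neg hd, if_neg hd]
    rw [tsum_congr h1, w6_sum hF hX0 R]
    simp only [Finset.mul_sum]
    rw [Finset.sum_comm]
    refine Finset.sum_congr rfl fun d _ => ?_
    rcases Nat.eq_zero_or_pos d with h0 | h0
    · subst h0
      simp [hF0]
    · by_cases hd : R d
      · rw [if_pos hd, hdiv d h0, Finset.sum_mul, Finset.mul_sum]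
        refine Finset.sum_congr rfl fun m _ => ?_
        by_cases hm : m ∣ d
        · rw [if_pos hm, if_pos ⟨hd, hm⟩]
          ring
        · rw [if_neg hm, if_neg (fun h => hm h.2)]
          ring
      · rw [if_neg hd]
        symm
        apply Finset.sum_eq_zero
        intro m _
        rw [if_neg (fun h => hd h.1), mul_zero]
  -- one modulus
  have hQ : ∀ m : ℕ, quad W₁ W₂ m M (PRw R D c₀ σ F m X) =
      m / (D * X) * ∑ d ∈ S, (if R d ∧ m ∣ d then F (d / X) * P d else 0) := by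
    intro m
    have h1 : PRw R D c₀ σ F m X = fun N => m / (D * X) *
        ∑ d ∈ S, (if R d ∧ m ∣ d then F (d / X) * jr (2 * σ * ((c₀ * d : ℕ) : ℤ)) N else 0) := by
      funext N
      unfold PRw
      congr 1
      have := w6_sum hF hX0 (fun d => R d ∧ m ∣ d) (fun d => jr (2 * σ * ((c₀ * d : ℕ) : ℤ)) N)
      rw [← hS] at this
      rw [← this]
    rw [h1, w6_quad_smul, w6_quad_sum]
    congr 1
    refine Finset.sum_congr rfl fun d _ => ?_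
    by_cases hd : R d ∧ m ∣ d
    · simp only [if_pos hd]
      rw [w6_quad_smul, hP]
      simp only []
      rw [w6_prod σ c₀ d m hd.2]
    · simp only [if_neg hd]
      exact w6_quad_zero _ _ _ _
  unfold avWg
  rw [hL, Finset.mul_sum, Finset.mul_sum]
  refine Finset.sum_congr rfl fun m hm => ?_
  rw [hQ m]
  have hm0 : (m : ℝ) ≠ 0 := by
    unfold Osq at hm
    rw [Finset.mem_filter, Finset.mem_Icc] at hm
    have : 0 < m := hm.1.1
    exact_mod_cast this.ne'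
  field_simp

end Pool.Agent.MP0016c7.PC
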