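import Mathlib
import Pool.Agent.Lib.MP_0016c7_nt.PC.W.StmW2
import Pool.Agent.Lib.MP_0016c7_nt.Rz.Sm1

set_option autoImplicit false

/-!
Block [W], piece W7: replacing the processes by the truncated ones.
-/

open Finset MeasureTheory Filter Topology
open scoped Real ContDiff

namespace Pool.Agent.MP0016c7.PC

open Pool.Agent.MP0016c7.Rz

private theorem w7_bump_bdd {F : ℝ → ℝ} {a b : ℝ} (hF : Bump F a b) :
    ∃ B : ℝ, 0 ≤ B ∧ ∀ t, |F t| ≤ B := by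
  obtain ⟨B, hB⟩ := (isCompact_Icc (a := a) (b := b)).exists_bound_of_continuousOn
    (f := F) hF.smooth.continuous.continuousOn
  refine ⟨|B|, abs_nonneg _, fun t => ?_⟩
  by_cases h : F t = 0
  · rw [h, abs_zero]; exact abs_nonneg _
  · have h1 := hF.supp t h
    have := hB t ⟨h1.1.le, h1.2.le⟩
    rw [Real.norm_eq_abs] at this
    exact this.trans (le_abs_self _)

/-- the difference of two weighted sums -/
private theorem w7_diff {F : ℝ → ℝ} {a b B : ℝ} (hF : Bump F a b) (hB0 : 0 ≤ B)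
    (hB : ∀ t, |F t| ≤ B) (P : ℕ → Prop) (X T : ℝ) (hX : 1 ≤ X) (c u v : ℕ → ℝ)
    (huv : ∀ d, |c d| * |u d - v d| ≤ T) (hT : 0 ≤ T) :
    |∑' d : ℕ, (@ite ℝ (P d) (Classical.dec _) (c d * F (d / X) * u d) 0) -
      ∑' d : ℕ, (@ite ℝ (P d) (Classical.dec _) (c d * F (d / X) * v d) 0)| ≤
      (|b| + 2) * X * (B * T) := by
  have hXpos : 0 < X := by linarith
  set D : ℕ := ⌈|b| * X⌉₊ with hD
  have hzero : ∀ (f : ℕ → ℝ) (d : ℕ), d ∉ range (D + 1) →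
      (@ite ℝ (P d) (Classical.dec _) (c d * F (d / X) * f d) 0) = 0 := by
    intro f d hd
    split_ifs
    · rw [mem_range, not_lt] at hd
      have h1 : |b| * X ≤ d := by
        have h2 : (D : ℝ) ≤ d := by exact_mod_cast (by omega : D ≤ d)
        exact (Nat.le_ceil _).trans h2
      have h3 : F (d / X) = 0 := by
        by_contra h
        have h4 := (hF.supp _ h).2
        rw [div_lt_iff₀ hXpos] at h4
        have h5 : b * X ≤ |b| * X := mul_le_mul_of_nonneg_right (le_abs_self b) hXpos.le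
        linarith only [h1, h4, h5]
      rw [h3, mul_zero, zero_mul]
    · rfl
  rw [tsum_eq_sum (s := range (D + 1)) (fun d hd => hzero u d hd),
    tsum_eq_sum (s := range (D + 1)) (fun d hd => hzero v d hd), ← sum_sub_distrib]
  have hs : |∑ d ∈ range (D + 1), ((@ite ℝ (P d) (Classical.dec _) (c d * F (d / X) * u d) 0) -
      (@ite ℝ (P d) (Classical.dec _) (c d * F (d / X) * v d) 0))| ≤ ((D : ℝ) + 1) * (B * T) := by
    refine (abs_sum_le_sum_abs _ _).trans ?_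
    refine (sum_le_card_nsmul _ _ (B * T) ?_).trans ?_
    · intro d _
      split_ifs
      · rw [← mul_sub, abs_mul, abs_mul]
        calc |c d| * |F (d / X)| * |u d - v d| = |F (d / X)| * (|c d| * |u d - v d|) := by ring
          _ ≤ B * T := mul_le_mul (hB _) (huv d) (by positivity) hB0
      · rw [sub_zero, abs_zero]; positivity
    · rw [card_range, nsmul_eq_mul]; push_cast; exact le_rfl
  refine hs.trans (mul_le_mul_of_nonneg_right ?_ (by positivity))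
  have h1 : (D : ℝ) < |b| * X + 1 := Nat.ceil_lt_add_one (by positivity)
  nlinarith only [hX, h1]

/-- the size of the sieve weights -/
private theorem w7_weight {X η ε₀ V : ℝ} {A : ℕ} {w : ℕ → ℝ} (hX : 1 ≤ X) (hη : η < 1 / 2)
    (hε : ε₀ ≤ 1) (hw : SW X η ε₀ A w V) (d : ℕ) : |∑ m ∈ d.divisors, w m| ≤ X ^ 2 := by
  have hXpos : 0 < X := by linarith
  have h1 : X ^ ε₀ ≤ X := by
    calc X ^ ε₀ ≤ X ^ (1 : ℝ) := Real.rpow_le_rpow_of_exponent_le hX hε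
      _ = X := Real.rpow_one X
  have h2 : X ^ η ≤ X := by
    calc X ^ η ≤ X ^ (1 : ℝ) := Real.rpow_le_rpow_of_exponent_le hX (by linarith)
      _ = X := Real.rpow_one X
  have h3 : ∑ m ∈ d.divisors, w m = ∑ m ∈ d.divisors.filter (fun m => m ∈ Icc 1 ⌊X ^ η⌋₊), w m := by
    rw [sum_filter]
    refine sum_congr rfl fun m hm => ?_
    split_ifs with h
    · rfl
    · by_contra hne
      refine h (mem_Icc.2 ⟨Nat.pos_of_mem_divisors hm, ?_⟩)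
      exact Nat.le_floor (hw.supp m hne).2.2
  rw [h3]
  refine (abs_sum_le_sum_abs _ _).trans ?_
  refine (sum_le_card_nsmul _ _ X fun m _ => (hw.bd m).trans h1).trans ?_
  rw [nsmul_eq_mul]
  have h4 : ((d.divisors.filter (fun m => m ∈ Icc 1 ⌊X ^ η⌋₊)).card : ℝ) ≤ X := by
    have h5 : (d.divisors.filter (fun m => m ∈ Icc 1 ⌊X ^ η⌋₊)).card ≤ ⌊X ^ η⌋₊ := by
      calc (d.divisors.filter (fun m => m ∈ Icc 1 ⌊X ^ η⌋₊)).card
          ≤ (Icc 1 ⌊X ^ η⌋₊).card := card_le_card fun m hm => (mem_filter.1 hm).2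
        _ = ⌊X ^ η⌋₊ := by rw [Nat.card_Icc]; omega
    calc ((d.divisors.filter (fun m => m ∈ Icc 1 ⌊X ^ η⌋₊)).card : ℝ) ≤ (⌊X ^ η⌋₊ : ℝ) := by
          exact_mod_cast h5
      _ ≤ X ^ η := Nat.floor_le (by positivity)
      _ ≤ X := h2
  calc ((d.divisors.filter (fun m => m ∈ Icc 1 ⌊X ^ η⌋₊)).card : ℝ) * X ≤ X * X :=
        mul_le_mul_of_nonneg_right h4 hXpos.le
    _ = X ^ 2 := by ring

/-- the size of `1 / V` -/
private theorem w7_V {X V : ℝ} (hX : 3 ≤ X)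
    (hlow : (Real.log X) ^ (-(10 : ℝ)) ≤ V) : 1 / V ≤ 1024 * X ^ 5 := by
  have hXpos : 0 < X := by linarith
  have hlog : 0 < Real.log X := Real.log_pos (by linarith)
  have h1 : Real.log X ≤ 2 * √X := by
    have := Real.log_le_rpow_div hXpos.le (ε := 1 / 2) (by norm_num)
    rw [← Real.sqrt_eq_rpow] at this
    linarith
  have h2 : (Real.log X) ^ (-(10 : ℝ)) = ((Real.log X) ^ 10)⁻¹ := by
    rw [Real.rpow_neg hlog.le]
    congr 1
    exact_mod_cast Real.rpow_natCast (Real.log X) 10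
  rw [h2] at hlow
  have h3 : 1 / V ≤ (Real.log X) ^ 10 := by
    rw [one_div]
    exact inv_le_of_inv_le₀ (by positivity) hlow
  refine h3.trans ?_
  calc (Real.log X) ^ 10 ≤ (2 * √X) ^ 10 := pow_le_pow_left₀ hlog.le h1 10
    _ = 1024 * (√X ^ 2) ^ 5 := by ring
    _ = 1024 * X ^ 5 := by rw [Real.sq_sqrt hXpos.le]

theorem p_W7 : S_W7 := by
  intro R D hD F a b _ha hF σ c₀ θ₁ θ₂ δ η hθ₁ hθ₂ hδ _hη hθ₁' hθ₂' hη' c hc ρ₁ ρ₂ h₁ h₂ hρ₁ hρ₂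
    hh₁ hh₂ ε' hε'
  obtain ⟨B, hB0, hB⟩ := w7_bump_bdd hF
  obtain ⟨X₁, hX₁⟩ := ytil_trunc hδ hθ₁ hθ₁' hρ₁ hh₁ c hc σ
  obtain ⟨X₂, hX₂⟩ := ytil_trunc hδ hθ₂ hθ₂' hρ₂ hh₂ c hc σ
  set K : ℝ := 2048 * (|b| + 2) * B / D with hK
  have hK0 : 0 ≤ K := by positivity
  refine ⟨max (max X₁ X₂) (max 3 (K / ε')), ?_⟩
  intro X hX ε₀ hε₀ A w V hw Y₁ hY₁ Y₂ hY₂
  have hXa : X₁ ≤ X := ((le_max_left _ _).trans (le_max_left _ _)).trans hX
  have hXb : X₂ ≤ X := ((le_max_right _ _).trans (le_max_left _ _)).trans hX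
  have hXc : 3 ≤ X := ((le_max_left _ _).trans (le_max_right _ _)).trans hX
  have hXd : K / ε' ≤ X := ((le_max_right _ _).trans (le_max_right _ _)).trans hX
  have hX1 : 1 ≤ X := by linarith
  have hXpos : 0 < X := by linarith
  have hprod : X ^ 20 * X ^ (-30 : ℝ) = (X ^ 10)⁻¹ := by
    have h1 : X ^ (-30 : ℝ) = (X ^ 30)⁻¹ := by
      rw [Real.rpow_neg hXpos.le]
      congr 1
      exact_mod_cast Real.rpow_natCast X 30
    rw [h1]
    field_simp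
  have huv : ∀ d : ℕ, |ytil c σ ρ₁ h₁ X (c₀ * d) Y₁ * ytil c σ ρ₂ h₂ X (c₀ * d) Y₂ -
      TT c σ ρ₁ h₁ X θ₁ δ (c₀ * d) Y₁ * TT c σ ρ₂ h₂ X θ₂ δ (c₀ * d) Y₂| ≤ 2 * (X ^ 10)⁻¹ := by
    intro d
    obtain ⟨p1, p2, p3⟩ := hX₁ X hXa Y₁ hY₁ (c₀ * d)
    obtain ⟨q1, q2, q3⟩ := hX₂ X hXb Y₂ hY₂ (c₀ * d)
    have e : ytil c σ ρ₁ h₁ X (c₀ * d) Y₁ * ytil c σ ρ₂ h₂ X (c₀ * d) Y₂ -
      TT c σ ρ₁ h₁ X θ₁ δ (c₀ * d) Y₁ * TT c σ ρ₂ h₂ X θ₂ δ (c₀ * d) Y₂ =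
      ytil c σ ρ₁ h₁ X (c₀ * d) Y₁ *
        (ytil c σ ρ₂ h₂ X (c₀ * d) Y₂ - TT c σ ρ₂ h₂ X θ₂ δ (c₀ * d) Y₂) +
      TT c σ ρ₂ h₂ X θ₂ δ (c₀ * d) Y₂ *
        (ytil c σ ρ₁ h₁ X (c₀ * d) Y₁ - TT c σ ρ₁ h₁ X θ₁ δ (c₀ * d) Y₁) := by
      ring
    rw [e]
    refine (abs_add_le _ _).trans ?_
    rw [abs_mul, abs_mul]
    have h1 := (mul_le_mul p1 q3 (abs_nonneg _) (by positivity)).trans hprod.le
    have h2 := (mul_le_mul q2 p3 (abs_nonneg _) (by positivity)).trans hprod.le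
    linarith only [h1, h2]
  have hT : ∀ d : ℕ, |∑ m ∈ d.divisors, w m| *
      |ytil c σ ρ₁ h₁ X (c₀ * d) Y₁ * ytil c σ ρ₂ h₂ X (c₀ * d) Y₂ -
      TT c σ ρ₁ h₁ X θ₁ δ (c₀ * d) Y₁ * TT c σ ρ₂ h₂ X θ₂ δ (c₀ * d) Y₂| ≤
      X ^ 2 * (2 * (X ^ 10)⁻¹) := fun d =>
    mul_le_mul (w7_weight hX1 hη' hε₀ hw d) (huv d) (abs_nonneg _) (by positivity)
  have s1 := w7_diff hF hB0 hB R X (X ^ 2 * (2 * (X ^ 10)⁻¹)) hX1 (fun d => ∑ m ∈ d.divisors, w m)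
    (fun d => ytil c σ ρ₁ h₁ X (c₀ * d) Y₁ * ytil c σ ρ₂ h₂ X (c₀ * d) Y₂)
    (fun d => TT c σ ρ₁ h₁ X θ₁ δ (c₀ * d) Y₁ * TT c σ ρ₂ h₂ X θ₂ δ (c₀ * d) Y₂) hT
    (by positivity)
  have hV := w7_V hXc hw.low
  have hVp := hw.pos
  unfold avWg
  rw [← mul_sub, abs_mul, abs_of_pos (by positivity : (0 : ℝ) < 1 / (D * V * X))]
  refine (mul_le_mul_of_nonneg_left s1 (by positivity)).trans ?_
  have e1 : 1 / (D * V * X) * ((|b| + 2) * X * (B * (X ^ 2 * (2 * (X ^ 10)⁻¹)))) =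
      1 / V * (2 * (|b| + 2) * B / D * (X ^ 8)⁻¹) := by
    field_simp
  rw [e1]
  refine (mul_le_mul_of_nonneg_right hV (by positivity)).trans ?_
  have e2 : 1024 * X ^ 5 * (2 * (|b| + 2) * B / D * (X ^ 8)⁻¹) = K * (X ^ 3)⁻¹ := by
    rw [hK]
    field_simp
    ring
  rw [e2, ← div_eq_mul_inv, div_le_iff₀ (by positivity)]
  rw [div_le_iff₀ hε'] at hXd
  have h3 : X ≤ X ^ 3 := by
    calc X = X ^ 1 := (pow_one X).symm
      _ ≤ X ^ 3 := pow_le_pow_right₀ hX1 (by norm_num)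
  calc K ≤ X * ε' := hXd
    _ ≤ X ^ 3 * ε' := mul_le_mul_of_nonneg_right h3 hε'.le
    _ = ε' * X ^ 3 := by ring

end Pool.Agent.MP0016c7.PC
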