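import Mathlib
import Pool.Agent.Lib.MP_0016c7_nt.PC.W.StmW2
import Pool.Agent.Lib.MP_0016c7_nt.Rz.LipWt
import Pool.Agent.Lib.MP_0016c7_nt.Rz.DivB

set_option autoImplicit false

/-!
Block [W], piece W8: the trivial error terms, summed over the sieve modulus.
-/

open Finset MeasureTheory Filter Topology
open scoped Real ContDiff

namespace Pool.Agent.MP0016c7.PC

open Pool.Agent.MP0016c7.Rz

private theorem w8_harm (M : ℕ) : ∑ n ∈ Icc 1 M, 1 / (n : ℝ) ≤ 1 + Real.log M := by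
  have h1 := harmonic_le_one_add_log M
  rw [harmonic_eq_sum_Icc] at h1
  push_cast at h1
  refine le_trans (le_of_eq ?_) h1
  refine Finset.sum_congr rfl fun i _ => ?_
  rw [one_div]

private theorem w8_sum (M : ℕ) (B : ℝ) (G : ℕ → ℕ → ℕ → ℕ → ℝ)
    (h : ∀ n₁ ∈ Icc 1 M, ∀ l₁ ∈ Icc 1 M, ∀ n₂ ∈ Icc 1 M, ∀ l₂ ∈ Icc 1 M,
      |G n₁ l₁ n₂ l₂| ≤ B * (1 / (n₁ : ℝ)) * (1 / (l₁ : ℝ)) * (1 / (n₂ : ℝ)) * (1 / (l₂ : ℝ))) :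
    |∑ n₁ ∈ Icc 1 M, ∑ l₁ ∈ Icc 1 M, ∑ n₂ ∈ Icc 1 M, ∑ l₂ ∈ Icc 1 M, G n₁ l₁ n₂ l₂| ≤
      B * (∑ n ∈ Icc 1 M, 1 / (n : ℝ)) ^ 4 := by
  have h1 : |∑ n₁ ∈ Icc 1 M, ∑ l₁ ∈ Icc 1 M, ∑ n₂ ∈ Icc 1 M, ∑ l₂ ∈ Icc 1 M, G n₁ l₁ n₂ l₂| ≤
      ∑ n₁ ∈ Icc 1 M, ∑ l₁ ∈ Icc 1 M, ∑ n₂ ∈ Icc 1 M, ∑ l₂ ∈ Icc 1 M,
        B * (1 / (n₁ : ℝ)) * (1 / (l₁ : ℝ)) * (1 / (n₂ : ℝ)) * (1 / (l₂ : ℝ)) := by
    refine (Finset.abs_sum_le_sum_abs _ _).trans (Finset.sum_le_sum fun n₁ hn₁ => ?_)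
    refine (Finset.abs_sum_le_sum_abs _ _).trans (Finset.sum_le_sum fun l₁ hl₁ => ?_)
    refine (Finset.abs_sum_le_sum_abs _ _).trans (Finset.sum_le_sum fun n₂ hn₂ => ?_)
    refine (Finset.abs_sum_le_sum_abs _ _).trans (Finset.sum_le_sum fun l₂ hl₂ => ?_)
    exact h n₁ hn₁ l₁ hl₁ n₂ hn₂ l₂ hl₂
  refine h1.trans (le_of_eq ?_)
  simp only [← Finset.mul_sum, ← Finset.sum_mul]
  ring

/-- One quadruple sum. -/
private theorem w8_quad {X Z a₁ a₂ C₁ C₂ E₀ : ℝ} (hX0 : 0 < X) (hZ0 : 0 < Z)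
    (hC₁ : 0 < C₁) (hC₂ : 0 < C₂) (hE₀ : 0 ≤ E₀) {W₁ W₂ : ℕ → ℕ → ℝ}
    (hW₁ : LipW a₁ X C₁ W₁) (hW₂ : LipW a₂ X C₂ W₂)
    (hZ₁ : X ^ (1 / 2 + a₁) ≤ Z) (hZ₂ : X ^ (1 / 2 + a₂) ≤ Z) (m M : ℕ) (E : ℕ → ℝ)
    (hE : ∀ N : ℕ, 0 < N → Odd N → Nat.Coprime m N → (N : ℝ) ≤ Z ^ 2 → |E N| ≤ E₀) :
    |quad W₁ W₂ m M E| ≤ C₁ * C₂ * E₀ * Z * (∑ n ∈ Icc 1 M, 1 / (n : ℝ)) ^ 4 := by
  unfold quad
  refine w8_sum M _ _ ?_
  intro n₁ hn₁ l₁ hl₁ n₂ hn₂ l₂ hl₂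
  rw [Finset.mem_Icc] at hn₁ hl₁ hn₂ hl₂
  have p1 : (0 : ℝ) < n₁ := by exact_mod_cast hn₁.1
  have p2 : (0 : ℝ) < l₁ := by exact_mod_cast hl₁.1
  have p3 : (0 : ℝ) < n₂ := by exact_mod_cast hn₂.1
  have p4 : (0 : ℝ) < l₂ := by exact_mod_cast hl₂.1
  have hR : 0 ≤ C₁ * C₂ * E₀ * Z * (1 / (n₁ : ℝ)) * (1 / (l₁ : ℝ)) * (1 / (n₂ : ℝ)) *
      (1 / (l₂ : ℝ)) := by
    positivity
  split_ifs with hcop
  swap
  · rw [abs_zero]; exact hR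
  by_cases hz1 : X ^ (1 / 2 + a₁) < (l₁ : ℝ) * n₁
  · rw [hW₁.supp₂ l₁ n₁ hz1]
    simpa using hR
  by_cases hz2 : X ^ (1 / 2 + a₂) < (l₂ : ℝ) * n₂
  · rw [hW₂.supp₂ l₂ n₂ hz2]
    simpa using hR
  rw [not_lt] at hz1 hz2
  replace hz1 := hz1.trans hZ₁
  replace hz2 := hz2.trans hZ₂
  obtain ⟨N, hN⟩ : ∃ N : ℕ, N = n₁ * l₁ * n₂ * l₂ := ⟨_, rfl⟩
  rw [← hN] at hcop ⊢
  have hNr : (N : ℝ) = (n₁ : ℝ) * l₁ * n₂ * l₂ := by rw [hN]; push_cast; ring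
  have hN0 : (0 : ℝ) < N := by rw [hNr]; positivity
  have hN0' : 0 < N := by exact_mod_cast hN0
  have hNZ : (N : ℝ) ≤ Z ^ 2 := by
    calc (N : ℝ) = ((l₁ : ℝ) * n₁) * ((l₂ : ℝ) * n₂) := by rw [hNr]; ring
      _ ≤ Z * Z := mul_le_mul hz1 hz2 (by positivity) hZ0.le
      _ = Z ^ 2 := by ring
  have hNodd : Odd N := by
    have h2 : Nat.Coprime N 2 := Nat.Coprime.coprime_dvd_right (dvd_mul_right 2 m) hcop
    exact Nat.coprime_two_right.mp h2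
  have hNm : Nat.Coprime m N :=
    (Nat.Coprime.coprime_dvd_right (dvd_mul_left m 2) hcop).symm
  have hEN : |E N| ≤ E₀ := hE N hN0' hNodd hNm hNZ
  have hsq : 1 / √(N : ℝ) ≤ Z / N := by
    rw [div_le_div_iff₀ (Real.sqrt_pos.mpr hN0) hN0, one_mul]
    have h1 : √(N : ℝ) ≤ Z := by
      rw [show Z = √(Z ^ 2) by rw [Real.sqrt_sq hZ0.le]]
      exact Real.sqrt_le_sqrt hNZ
    calc (N : ℝ) = √(N : ℝ) * √(N : ℝ) := (Real.mul_self_sqrt hN0.le).symm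
      _ ≤ Z * √(N : ℝ) := mul_le_mul_of_nonneg_right h1 (Real.sqrt_nonneg _)
  have hmu : ∀ l : ℕ, |(ArithmeticFunction.moebius l : ℝ)| ≤ 1 := by
    intro l
    have := ArithmeticFunction.abs_moebius_le_one (n := l)
    exact_mod_cast this
  have e1 : |(ArithmeticFunction.moebius l₁ : ℝ) * (ArithmeticFunction.moebius l₂ : ℝ) *
      W₁ l₁ n₁ * W₂ l₂ n₂ / √(N : ℝ) * E N| =
      (|(ArithmeticFunction.moebius l₁ : ℝ)| * |(ArithmeticFunction.moebius l₂ : ℝ)|) *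
      (|W₁ l₁ n₁| * |W₂ l₂ n₂|) * (1 / √(N : ℝ)) * |E N| := by
    rw [abs_mul, abs_div, abs_mul, abs_mul, abs_mul, abs_of_nonneg (Real.sqrt_nonneg _)]
    ring
  rw [e1]
  have h1 : |(ArithmeticFunction.moebius l₁ : ℝ)| * |(ArithmeticFunction.moebius l₂ : ℝ)| ≤ 1 := by
    have := mul_le_mul (hmu l₁) (hmu l₂) (abs_nonneg _) zero_le_one
    simpa using this
  have h2 : |W₁ l₁ n₁| * |W₂ l₂ n₂| ≤ C₁ * C₂ :=
    mul_le_mul (hW₁.bd l₁ n₁) (hW₂.bd l₂ n₂) (abs_nonneg _) hC₁.le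
  calc _ ≤ 1 * (C₁ * C₂) * (Z / N) * E₀ := by
        gcongr
    _ = C₁ * C₂ * E₀ * Z * (1 / (n₁ : ℝ)) * (1 / (l₁ : ℝ)) * (1 / (n₂ : ℝ)) *
      (1 / (l₂ : ℝ)) := by
        rw [hNr]
        field_simp

theorem p_W8 : S_W8 := by
  intro θ₁ θ₂ δ η hθ₁ hθ₂ hδ hη hs₁ hs₂ c hc ρ₁ ρ₂ h₁ h₂ hρ₁ hρ₂ hh₁ hh₂ C₀ hC₀
  obtain ⟨C₁, X₁, hC₁, hW₁⟩ := lipW_Wt θ₁ δ hθ₁ hδ (by linarith) c hc hρ₁ hh₁
  obtain ⟨C₂, X₂, hC₂, hW₂⟩ := lipW_Wt θ₂ δ hθ₂ hδ (by linarith) c hc hρ₂ hh₂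
  obtain ⟨κ, hκ⟩ : ∃ κ : ℝ, κ = 1 / 2 - max θ₁ θ₂ - 3 * δ - η := ⟨_, rfl⟩
  have hm₁ : θ₁ ≤ max θ₁ θ₂ := le_max_left _ _
  have hm₂ : θ₂ ≤ max θ₁ θ₂ := le_max_right _ _
  have hκ0 : 0 < κ := by
    rcases max_choice θ₁ θ₂ with h | h <;> rw [hκ, h] <;> linarith
  have hκ1 : κ < 1 / 2 := by
    linarith
  obtain ⟨D, hD, hdiv⟩ := divisor_bound (κ / 8) (by positivity)
  obtain ⟨K, hK⟩ : ∃ K : ℝ, K = C₁ * C₂ * (C₀ * D) * (1 + 32 / κ) ^ 4 := ⟨_, rfl⟩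
  have hK0 : 0 ≤ K := by rw [hK]; positivity
  have hlim : Tendsto (fun X : ℝ => K * X ^ (-(κ / 8))) atTop (𝓝 0) := by
    simpa using (tendsto_rpow_neg_atTop (by positivity : 0 < κ / 8)).const_mul K
  obtain ⟨X₃, hX₃⟩ := eventually_atTop.mp (hlim.eventually (gt_mem_nhds one_pos))
  refine ⟨κ / 8, κ / 4, max (max X₁ X₂) (max X₃ 1), by positivity, by positivity,
    fun X hX Y₁ hY₁ Y₂ hY₂ E hE v hv => ?_⟩
  have hXX₁ : X₁ ≤ X := le_trans (le_trans (le_max_left _ _) (le_max_left _ _)) hX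
  have hXX₂ : X₂ ≤ X := le_trans (le_trans (le_max_right _ _) (le_max_left _ _)) hX
  have hXX₃ : X₃ ≤ X := le_trans (le_trans (le_max_left _ _) (le_max_right _ _)) hX
  have hX1 : 1 ≤ X := le_trans (le_trans (le_max_right _ _) (le_max_right _ _)) hX
  have hX0 : 0 < X := by linarith
  have hW₁' := hW₁ X hXX₁ Y₁ hY₁
  have hW₂' := hW₂ X hXX₂ Y₂ hY₂
  have hfin := (hX₃ X hXX₃).le
  obtain ⟨Z, hZ⟩ : ∃ Z : ℝ, Z = X ^ (1 - η - κ) := ⟨_, rfl⟩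
  have hZ0 : 0 < Z := by rw [hZ]; positivity
  have hZX : Z ≤ X := by
    rw [hZ]
    calc X ^ (1 - η - κ) ≤ X ^ (1 : ℝ) := Real.rpow_le_rpow_of_exponent_le hX1 (by linarith)
      _ = X := Real.rpow_one X
  have hZ₁ : X ^ (1 / 2 + (θ₁ + 3 * δ)) ≤ Z := by
    rw [hZ]
    exact Real.rpow_le_rpow_of_exponent_le hX1 (by rw [hκ]; linarith)
  have hZ₂ : X ^ (1 / 2 + (θ₂ + 3 * δ)) ≤ Z := by
    rw [hZ]
    exact Real.rpow_le_rpow_of_exponent_le hX1 (by rw [hκ]; linarith)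
  set M := ⌊X ^ 2⌋₊ with hM
  have hlogM : Real.log M ≤ 2 * Real.log X := by
    rcases Nat.eq_zero_or_pos M with h0 | h0
    · rw [h0]
      simp only [Nat.cast_zero, Real.log_zero]
      have := Real.log_nonneg hX1
      linarith
    · have h1 : (M : ℝ) ≤ X ^ 2 := Nat.floor_le (by positivity)
      have h2 : (0 : ℝ) < M := by exact_mod_cast h0
      calc Real.log M ≤ Real.log (X ^ 2) := Real.log_le_log h2 h1
        _ = 2 * Real.log X := by rw [Real.log_pow]; norm_num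
  have hlogX : Real.log X ≤ X ^ (κ / 16) / (κ / 16) := Real.log_le_rpow_div hX0.le (by positivity)
  have hone : 1 ≤ X ^ (κ / 16) := Real.one_le_rpow hX1 (by positivity)
  have hH0 : 0 ≤ ∑ n ∈ Icc 1 M, 1 / (n : ℝ) := Finset.sum_nonneg fun n _ => by positivity
  have hH : ∑ n ∈ Icc 1 M, 1 / (n : ℝ) ≤ (1 + 32 / κ) * X ^ (κ / 16) := by
    refine (w8_harm M).trans ?_
    have h1 : X ^ (κ / 16) / (κ / 16) = 16 / κ * X ^ (κ / 16) := by field_simp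
    rw [h1] at hlogX
    have h2 : (1 + 32 / κ) * X ^ (κ / 16) = X ^ (κ / 16) + 2 * (16 / κ * X ^ (κ / 16)) := by ring
    rw [h2]
    linarith
  have hH4 : (∑ n ∈ Icc 1 M, 1 / (n : ℝ)) ^ 4 ≤ (1 + 32 / κ) ^ 4 * X ^ (κ / 4) := by
    calc (∑ n ∈ Icc 1 M, 1 / (n : ℝ)) ^ 4 ≤ ((1 + 32 / κ) * X ^ (κ / 16)) ^ 4 :=
          pow_le_pow_left₀ hH0 hH 4
      _ = (1 + 32 / κ) ^ 4 * X ^ (κ / 4) := by
          rw [mul_pow, ← Real.rpow_natCast (X ^ (κ / 16)) 4, ← Real.rpow_mul hX0.le]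
          congr 2
          push_cast
          ring
  -- each modulus
  have hone_m : ∀ m ∈ Osq ⌊X ^ η⌋₊,
      |v m / m * quad (Wt c ρ₁ h₁ X θ₁ δ Y₁) (Wt c ρ₂ h₂ X θ₂ δ Y₂) m M (E m)| ≤
        X ^ (κ / 8) * (C₁ * C₂ * (C₀ * D * X ^ (κ / 4) / X) * Z *
          ((1 + 32 / κ) ^ 4 * X ^ (κ / 4))) := by
    intro m hm
    have hm1 : 1 ≤ m := by
      have := (Finset.mem_filter.mp hm).1
      exact (Finset.mem_Icc.mp this).1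
    have hm0 : (0 : ℝ) < m := by exact_mod_cast hm1
    have hq := w8_quad (X := X) (Z := Z) (E₀ := C₀ * m * (D * X ^ (κ / 4)) / X) hX0 hZ0 hC₁ hC₂
      (by positivity) hW₁' hW₂' hZ₁ hZ₂ m M (E m) (by
        intro N hN0 hNodd hNm hNZ
        refine (hE m hm N hNodd hNm).trans ?_
        rw [div_le_div_iff_of_pos_right hX0]
        refine mul_le_mul_of_nonneg_left ?_ (by positivity)
        refine (hdiv N hN0).trans ?_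
        refine mul_le_mul_of_nonneg_left ?_ hD.le
        have hN0r : (0 : ℝ) < N := by exact_mod_cast hN0
        have h3 : (N : ℝ) ≤ X ^ 2 := hNZ.trans (pow_le_pow_left₀ hZ0.le hZX 2)
        calc (N : ℝ) ^ (κ / 8) ≤ (X ^ 2) ^ (κ / 8) :=
              Real.rpow_le_rpow hN0r.le h3 (by positivity)
          _ = X ^ (κ / 4) := by
              rw [← Real.rpow_natCast X 2, ← Real.rpow_mul hX0.le]
              congr 1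
              push_cast
              ring)
    rw [abs_mul, abs_div, Nat.abs_cast]
    calc |v m| / m * |quad (Wt c ρ₁ h₁ X θ₁ δ Y₁) (Wt c ρ₂ h₂ X θ₂ δ Y₂) m M (E m)|
        ≤ X ^ (κ / 8) / m * (C₁ * C₂ * (C₀ * m * (D * X ^ (κ / 4)) / X) * Z *
          (∑ n ∈ Icc 1 M, 1 / (n : ℝ)) ^ 4) := by
          refine mul_le_mul ?_ hq (abs_nonneg _) (by positivity)
          exact div_le_div_of_nonneg_right (hv m) hm0.le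
      _ ≤ X ^ (κ / 8) / m * (C₁ * C₂ * (C₀ * m * (D * X ^ (κ / 4)) / X) * Z *
          ((1 + 32 / κ) ^ 4 * X ^ (κ / 4))) := by
          gcongr
      _ = _ := by
          field_simp
  have hcard : ((Osq ⌊X ^ η⌋₊).card : ℝ) ≤ X ^ η := by
    have h1 : (Osq ⌊X ^ η⌋₊).card ≤ ⌊X ^ η⌋₊ := by
      refine (Finset.card_filter_le _ _).trans ?_
      simp
    calc ((Osq ⌊X ^ η⌋₊).card : ℝ) ≤ (⌊X ^ η⌋₊ : ℝ) := by exact_mod_cast h1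
      _ ≤ X ^ η := Nat.floor_le (by positivity)
  calc |∑ m ∈ Osq ⌊X ^ η⌋₊, v m / m *
        quad (Wt c ρ₁ h₁ X θ₁ δ Y₁) (Wt c ρ₂ h₂ X θ₂ δ Y₂) m M (E m)|
      ≤ ∑ m ∈ Osq ⌊X ^ η⌋₊, |v m / m *
        quad (Wt c ρ₁ h₁ X θ₁ δ Y₁) (Wt c ρ₂ h₂ X θ₂ δ Y₂) m M (E m)| :=
        Finset.abs_sum_le_sum_abs _ _
    _ ≤ ∑ _m ∈ Osq ⌊X ^ η⌋₊, X ^ (κ / 8) * (C₁ * C₂ * (C₀ * D * X ^ (κ / 4) / X) * Z *
          ((1 + 32 / κ) ^ 4 * X ^ (κ / 4))) := Finset.sum_le_sum hone_m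
    _ = ((Osq ⌊X ^ η⌋₊).card : ℝ) * (X ^ (κ / 8) * (C₁ * C₂ * (C₀ * D * X ^ (κ / 4) / X) * Z *
          ((1 + 32 / κ) ^ 4 * X ^ (κ / 4)))) := by
        rw [Finset.sum_const, nsmul_eq_mul]
    _ ≤ X ^ η * (X ^ (κ / 8) * (C₁ * C₂ * (C₀ * D * X ^ (κ / 4) / X) * Z *
          ((1 + 32 / κ) ^ 4 * X ^ (κ / 4)))) := by
        refine mul_le_mul_of_nonneg_right hcard (by positivity)
    _ = K * (X ^ η * X ^ (κ / 8) * X ^ (κ / 4) * X ^ (-1 : ℝ) * X ^ (1 - η - κ) *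
          X ^ (κ / 4)) := by
        rw [hK, hZ, Real.rpow_neg hX0.le, Real.rpow_one]
        ring
    _ = (K * X ^ (-(κ / 8))) * X ^ (-(κ / 4)) := by
        rw [← Real.rpow_add hX0, ← Real.rpow_add hX0, ← Real.rpow_add hX0, ← Real.rpow_add hX0,
          ← Real.rpow_add hX0, mul_assoc, ← Real.rpow_add hX0]
        congr 2
        ring
    _ ≤ 1 * X ^ (-(κ / 4)) := by
        refine mul_le_mul_of_nonneg_right hfin (by positivity)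
    _ = X ^ (-(κ / 4)) := one_mul _

end Pool.Agent.MP0016c7.PC
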