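import Pool.Agent.Lib.MP_0016c7_nt.PC.W.P1
import Pool.Agent.Lib.MP_0016c7_nt.PC.W.P2
import Pool.Agent.Lib.MP_0016c7_nt.PC.W.P3
import Pool.Agent.Lib.MP_0016c7_nt.PC.W.P4
import Pool.Agent.Lib.MP_0016c7_nt.PC.W.P4b
import Pool.Agent.Lib.MP_0016c7_nt.PC.W.P5
import Pool.Agent.Lib.MP_0016c7_nt.PC.W.P6
import Pool.Agent.Lib.MP_0016c7_nt.PC.W.P7
import Pool.Agent.Lib.MP_0016c7_nt.PC.W.P8
import Pool.Agent.Lib.MP_0016c7_nt.PC.W.P9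
import Pool.Agent.Lib.MP_0016c7_nt.PC.W.P10
import Pool.Agent.Lib.MP_0016c7_nt.PC.W.P11

set_option autoImplicit false

/-!
Block [W]: the final theorems.
-/

namespace Pool.Agent.MP0016c7.PC

theorem w_h4b : S_W4b := p_W4b (p_W4 p_W2 (p_W3 p_W1))

theorem jf_absq : JF_absq := p_W_absq w_h4b

theorem jf_smW (hE : JF_err) (hQ : JF_quadp) : JF_smW :=
  p_W11 w_h4b p_W5b p_W6 p_W7 p_W8 p_W9 (p_W10 w_h4b p_W5 p_W5b) hE hQ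

end Pool.Agent.MP0016c7.PC
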