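import Pool.Agent.Lib.MP_0016c7_nt.PC.W.StmW2

set_option autoImplicit false

open Finset MeasureTheory Filter Topology
open scoped Real ContDiff

namespace Pool.Agent.MP0016c7.PC

open Pool.Agent.MP0016c7.Rz

private theorem w1_dmul (a b : ℕ) :
    ((a * b).divisors.card : ℝ) ≤ (a.divisors.card : ℝ) * b.divisors.card := by
  rw [Nat.divisors_mul]
  exact_mod_cast Finset.card_mul_le

private theorem w1_step (g : ℕ → ℝ) (hg : ∀ n, 0 ≤ g n) (K : ℕ) :
    ∑ n ∈ Icc 1 K, ∑ a ∈ n.divisors, g a * g (n / a) ≤ (∑ n ∈ Icc 1 K, g n) ^ 2 := by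
  rw [sq, Finset.sum_mul_sum, ← Finset.sum_product', Finset.sum_sigma']
  let φ : (Σ _ : ℕ, ℕ) → ℕ × ℕ := fun x => (x.2, x.1 / x.2)
  have hinj : Set.InjOn φ ((Icc 1 K).sigma fun n => n.divisors) := by
    rintro ⟨n, a⟩ hx ⟨m, b⟩ hy h
    simp only [Finset.coe_sigma, Set.mem_sigma_iff, Finset.mem_coe, Nat.mem_divisors] at hx hy
    simp only [φ, Prod.mk.injEq] at h
    obtain ⟨h1, h2⟩ := h
    subst h1
    have h3 : n = m := by
      rw [← Nat.mul_div_cancel' hx.2.1, ← Nat.mul_div_cancel' hy.2.1, h2]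
    subst h3
    rfl
  have h1 : ∑ x ∈ (Icc 1 K).sigma fun n => n.divisors, g x.2 * g (x.1 / x.2) =
      ∑ y ∈ ((Icc 1 K).sigma fun n => n.divisors).image φ, g y.1 * g y.2 := by
    rw [Finset.sum_image hinj]
  rw [h1]
  refine Finset.sum_le_sum_of_subset_of_nonneg ?_ fun y _ _ => mul_nonneg (hg _) (hg _)
  intro y hy
  rw [Finset.mem_image] at hy
  obtain ⟨⟨n, a⟩, hx, rfl⟩ := hy
  simp only [Finset.mem_sigma, Finset.mem_Icc, Nat.mem_divisors] at hx
  obtain ⟨⟨hn1, hnK⟩, hd, hn0⟩ := hx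
  have ha : 0 < a := Nat.pos_of_dvd_of_pos hd hn1
  have hle : a ≤ n := Nat.le_of_dvd hn1 hd
  simp only [φ, Finset.mem_product, Finset.mem_Icc]
  exact ⟨⟨ha, hle.trans hnK⟩, Nat.div_pos hle ha, (Nat.div_le_self _ _).trans hnK⟩

theorem p_W1 : S_W1 := by
  intro k K
  induction k with
  | zero =>
    simp only [pow_zero, pow_one]
    have h := harmonic_le_one_add_log K
    rw [harmonic_eq_sum_Icc] at h
    push_cast at h
    simpa [one_div] using h
  | succ k ih =>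
    have h0 : 0 ≤ ∑ n ∈ Icc 1 K, (n.divisors.card : ℝ) ^ k / n :=
      Finset.sum_nonneg fun n _ => by positivity
    have h1 := w1_step (fun n => (n.divisors.card : ℝ) ^ k / n) (fun n => by positivity) K
    have h2 : ∑ n ∈ Icc 1 K, (n.divisors.card : ℝ) ^ (k + 1) / n ≤
        ∑ n ∈ Icc 1 K, ∑ a ∈ n.divisors, (a.divisors.card : ℝ) ^ k / a *
          (((n / a).divisors.card : ℝ) ^ k / ((n / a : ℕ) : ℝ)) := by
      refine Finset.sum_le_sum fun n hn => ?_
      rw [Finset.mem_Icc] at hn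
      have h3 : (n.divisors.card : ℝ) ^ (k + 1) / n =
          ∑ a ∈ n.divisors, (n.divisors.card : ℝ) ^ k / n := by
        rw [Finset.sum_const, nsmul_eq_mul, pow_succ]
        ring
      rw [h3]
      refine Finset.sum_le_sum fun a ha => ?_
      rw [Nat.mem_divisors] at ha
      have h4 : a * (n / a) = n := Nat.mul_div_cancel' ha.1
      have h5 := w1_dmul a (n / a)
      rw [h4] at h5
      have h6 : (n : ℝ) = (a : ℝ) * ((n / a : ℕ) : ℝ) := by exact_mod_cast h4.symm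
      rw [div_mul_div_comm, ← mul_pow, ← h6]
      exact div_le_div_of_nonneg_right (pow_le_pow_left₀ (by positivity) h5 k) (by positivity)
    calc ∑ n ∈ Icc 1 K, (n.divisors.card : ℝ) ^ (k + 1) / n
        ≤ (∑ n ∈ Icc 1 K, (n.divisors.card : ℝ) ^ k / n) ^ 2 := h2.trans h1
      _ ≤ ((1 + Real.log K) ^ (2 ^ k)) ^ 2 := pow_le_pow_left₀ h0 ih 2
      _ = (1 + Real.log K) ^ (2 ^ (k + 1)) := by rw [← pow_mul, pow_succ]

end Pool.Agent.MP0016c7.PC
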