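import Pool.Agent.Lib.MP_0016c7_nt.PC.W.StmW2
import Pool.Agent.Lib.MP_0016c7_nt.Rz.DivB

set_option autoImplicit false

/-!
Block [W]: the size of the main function (piece W9).
-/

open Finset

namespace Pool.Agent.MP0016c7.PC

open Pool.Agent.MP0016c7.Rz

private theorem w9_loc {p : ℕ} (hp : 3 ≤ p) :
    0 < (1 - 1 / (p : ℝ))⁻¹ ∧ (1 - 1 / (p : ℝ))⁻¹ ≤ √(p : ℝ) := by
  have hp' : (3 : ℝ) ≤ p := by exact_mod_cast hp
  have hp0 : (0 : ℝ) < p := by linarith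
  have h1 : (1 - 1 / (p : ℝ)) = (p - 1) / p := by field_simp
  have h2 : (0 : ℝ) < (p - 1) / p := div_pos (by linarith) hp0
  rw [h1]
  refine ⟨inv_pos.2 h2, ?_⟩
  rw [inv_div, div_le_iff₀ (by linarith)]
  have h3 : √(p : ℝ) ≤ p - 1 := by
    rw [Real.sqrt_le_left (by linarith)]
    nlinarith
  calc (p : ℝ) = √(p : ℝ) * √(p : ℝ) := (Real.mul_self_sqrt hp0.le).symm
    _ ≤ √(p : ℝ) * (p - 1) := mul_le_mul_of_nonneg_left h3 (Real.sqrt_nonneg _)

private theorem w9_gN {N : ℕ} (hN : Odd N) : 0 < gN N ∧ gN N ≤ √(N : ℝ) := by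
  have h3 : ∀ p ∈ N.primeFactors, 3 ≤ p := by
    intro p hp
    have hpp := Nat.prime_of_mem_primeFactors hp
    have hd := Nat.dvd_of_mem_primeFactors hp
    have h2 := hpp.two_le
    rcases h2.eq_or_lt with h | h
    · subst h
      exact absurd hN (Nat.not_odd_iff_even.2 (even_iff_two_dvd.2 hd))
    · exact h
  refine ⟨Finset.prod_pos fun p hp => (w9_loc (h3 p hp)).1, ?_⟩
  unfold gN
  calc ∏ p ∈ N.primeFactors, (1 - 1 / (p : ℝ))⁻¹ ≤ ∏ p ∈ N.primeFactors, √(p : ℝ) :=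
        Finset.prod_le_prod (fun p hp => (w9_loc (h3 p hp)).1.le)
          fun p hp => (w9_loc (h3 p hp)).2
    _ = √(∏ p ∈ N.primeFactors, (p : ℝ)) := by
        rw [Real.sqrt_prod]
        exact fun p _ => Nat.cast_nonneg p
    _ ≤ √(N : ℝ) := by
        apply Real.sqrt_le_sqrt
        rw [← Nat.cast_prod]
        exact_mod_cast Nat.le_of_dvd hN.pos (Nat.prod_primeFactors_dvd N)

theorem p_W9 : S_W9 := by
  obtain ⟨C, hC, hd⟩ := divisor_bound (1 / 2) (by norm_num)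
  refine ⟨C, hC, fun N hN => ⟨(w9_gN hN).1, ?_⟩⟩
  have h1 := (w9_gN hN).2
  have hN0 : 0 < N := hN.pos
  have h2 := hd N hN0
  have h3 : (1 : ℝ) ≤ √(sq1 N : ℝ) := by
    rw [Real.one_le_sqrt]
    have : 0 < sq1 N := Finset.prod_pos fun p hp =>
      (Nat.prime_of_mem_primeFactors (Finset.mem_filter.1 hp).1).pos
    exact_mod_cast this
  have h4 : (N.divisors.card : ℝ) / √(sq1 N : ℝ) ≤ N.divisors.card :=
    div_le_self (Nat.cast_nonneg _) h3
  have h5 : (N : ℝ) ^ (1 / 2 : ℝ) = √(N : ℝ) := (Real.sqrt_eq_rpow _).symm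
  rw [h5] at h2
  calc gN N * ((N.divisors.card : ℝ) / √(sq1 N : ℝ)) ≤ √(N : ℝ) * (C * √(N : ℝ)) :=
        mul_le_mul h1 (h4.trans h2) (by positivity) (Real.sqrt_nonneg _)
    _ = C * (√(N : ℝ) * √(N : ℝ)) := by ring
    _ = C * N := by rw [Real.mul_self_sqrt (Nat.cast_nonneg _)]

end Pool.Agent.MP0016c7.PC
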